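import Mathlib

/-!
# Auxiliary lemmas: pigeonhole, divisors of powers, the arithmetic and the geometric mean
-/

set_option autoImplicit false

namespace Pool.Agent.J4.H64.FL

open Finset Filter Topology

/-- pigeonhole principle for frequent events -/
lemma freq_fin {ι : Type} [Finite ι] {Q : ι → ℕ → Prop}
    (h : ∃ᶠ n in atTop, ∃ i, Q i n) : ∃ i, ∃ᶠ n in atTop, Q i n := by
  by_contra hc
  have h1 : ∀ i, ∀ᶠ n in atTop, ¬ Q i n := fun i =>
    Filter.not_frequently.1 (fun h2 => hc ⟨i, h2⟩)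
  have h2 := Filter.eventually_all.2 h1
  exact h (h2.mono fun n hn hex => by
    obtain ⟨i, hi⟩ := hex
    exact hn i hi)

/-- a divisor of a power of `b` which is smaller than `2 ^ M` divides `b ^ M` -/
lemma dvd_pow_of_lt {b D k M : ℕ} (hb : b ≠ 0) (h : D ∣ b ^ k) (hD : D < 2 ^ M) : D ∣ b ^ M := by
  have hD0 : D ≠ 0 := by
    rintro rfl
    exact pow_ne_zero k hb (Nat.eq_zero_of_zero_dvd h)
  rw [← Nat.factorization_le_iff_dvd hD0 (pow_ne_zero _ hb)]
  intro p
  rw [Nat.factorization_pow, Finsupp.smul_apply, smul_eq_mul]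
  by_cases hp : p.Prime
  · by_cases hpD : p ∣ D
    · have h1 : p ∣ b := hp.dvd_of_dvd_pow (hpD.trans h)
      have h2 : 1 ≤ b.factorization p := by
        rw [← hp.dvd_iff_one_le_factorization hb]
        exact h1
      have h3 : p ^ D.factorization p ∣ D := Nat.ordProj_dvd D p
      have h4 : 2 ^ D.factorization p < 2 ^ M := by
        calc 2 ^ D.factorization p ≤ p ^ D.factorization p := Nat.pow_le_pow_left hp.two_le _
          _ ≤ D := Nat.le_of_dvd (Nat.pos_of_ne_zero hD0) h3
          _ < 2 ^ M := hD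
      have h5 : D.factorization p < M := (Nat.pow_lt_pow_iff_right (by norm_num)).1 h4
      nlinarith
    · rw [Nat.factorization_eq_zero_of_not_dvd hpD]
      exact Nat.zero_le _
  · rw [Nat.factorization_eq_zero_of_not_prime _ hp]
    exact Nat.zero_le _

/-- `t`-power-free part of a divisor of a power of `b` -/
lemma exists_free_part {b N k t : ℕ} (hb : b ≠ 0) (ht : 1 ≤ t) (hN : N ∣ b ^ k) :
    ∃ u w : ℕ, N = u * w ^ t ∧ u ∣ b ^ t ∧ w ∣ b ^ k := by
  have hN0 : N ≠ 0 := by
    rintro rfl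
    exact pow_ne_zero k hb (Nat.eq_zero_of_zero_dvd hN)
  -- the largest `w` with `w ^ t ∣ N`
  have hex : ∃ w, w ^ t ∣ N := ⟨1, by simp⟩
  have hbd : ∀ w, w ^ t ∣ N → w ≤ N := fun w hw =>
    (Nat.le_self_pow (by omega) w).trans (Nat.le_of_dvd (Nat.pos_of_ne_zero hN0) hw)
  obtain ⟨w, hw, hmax⟩ : ∃ w, w ^ t ∣ N ∧ ∀ v, v ^ t ∣ N → v ≤ w := by
    classical
    refine ⟨Nat.findGreatest (fun w => w ^ t ∣ N) N, ?_, ?_⟩
    · exact Nat.findGreatest_spec (P := fun w => w ^ t ∣ N) (m := 1)
        (Nat.one_le_iff_ne_zero.2 hN0) (by simp)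
    · intro v hv
      exact Nat.le_findGreatest (hbd v hv) hv
  obtain ⟨u, hu⟩ := hw
  have hw0 : w ≠ 0 := by
    rintro rfl
    rw [zero_pow (by omega), zero_mul] at hu
    exact hN0 hu
  have hu0 : u ≠ 0 := by
    rintro rfl
    rw [mul_zero] at hu
    exact hN0 hu
  refine ⟨u, w, by rw [hu, mul_comm], ?_, ?_⟩
  · rw [← Nat.factorization_le_iff_dvd hu0 (pow_ne_zero _ hb)]
    intro p
    rw [Nat.factorization_pow, Finsupp.smul_apply, smul_eq_mul]
    by_cases hp : p.Prime
    · by_cases hpu : p ∣ u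
      · have h1 : p ∣ b := hp.dvd_of_dvd_pow (n := k) ((hpu.trans ⟨w ^ t, by rw [hu, mul_comm]⟩).trans hN)
        have h2 : 1 ≤ b.factorization p := by
          rw [← hp.dvd_iff_one_le_factorization hb]
          exact h1
        have h3 : u.factorization p < t := by
          by_contra hc
          rw [not_lt] at hc
          have h4 : p ^ t ∣ u := (pow_dvd_pow p hc).trans (Nat.ordProj_dvd u p)
          have h5 : (w * p) ^ t ∣ N := by
            rw [mul_pow, hu]
            exact Nat.mul_dvd_mul_left _ h4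
          have h6 := hmax _ h5
          have h7 : 2 ≤ p := hp.two_le
          have h8 : 0 < w := Nat.pos_of_ne_zero hw0
          nlinarith
        nlinarith
      · rw [Nat.factorization_eq_zero_of_not_dvd hpu]
        exact Nat.zero_le _
    · rw [Nat.factorization_eq_zero_of_not_prime _ hp]
      exact Nat.zero_le _
  · exact ((dvd_pow_self w (by omega : t ≠ 0)).trans ⟨u, hu⟩).trans hN

lemma log_bounds {z : ℝ} (hz : |z| ≤ 1 / 2) : |z - Real.log (1 + z)| ≤ 2 * z ^ 2 := by
  have h1 := abs_le.1 hz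
  have hpos : 0 < 1 + z := by linarith
  have h2 : Real.log (1 + z) ≤ z := by
    have := Real.log_le_sub_one_of_pos hpos
    linarith
  have h3 : 1 - (1 + z)⁻¹ ≤ Real.log (1 + z) := Real.one_sub_inv_le_log_of_pos hpos
  have h4 : z - 2 * z ^ 2 ≤ 1 - (1 + z)⁻¹ := by
    have e : 1 - (1 + z)⁻¹ - (z - 2 * z ^ 2) = z ^ 2 * (1 + 2 * z) / (1 + z) := by
      field_simp
      ring
    have : 0 ≤ z ^ 2 * (1 + 2 * z) / (1 + z) :=
      div_nonneg (mul_nonneg (sq_nonneg z) (by linarith)) hpos.le
    linarith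
  rw [abs_le]
  constructor
  · nlinarith [sq_nonneg z]
  · linarith

/-- numbers with product `G ^ t` which differ by at most `Y` have a sum near `t G` -/
lemma sum_near {t : ℕ} (ht : 1 ≤ t) (x : Fin t → ℝ) (hx : ∀ i, 0 < x i) {G Y : ℝ} (hG : 0 < G)
    (hprod : ∏ i, x i = G ^ t) (hY : ∀ i j, |x i - x j| ≤ Y) (hYG : Y ≤ G / 2) :
    (∀ i, |x i - G| ≤ Y) ∧ |∑ i, x i - t * G| ≤ 2 * t * (Y ^ 2 / G) := by
  have hne : (Finset.univ : Finset (Fin t)).Nonempty := ⟨⟨0, by omega⟩, Finset.mem_univ _⟩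
  -- one of the numbers is at most `G` and one is at least `G`
  have hlow : ∃ i, x i ≤ G := by
    by_contra hc
    push Not at hc
    have h1 : ∏ _i : Fin t, G < ∏ i, x i :=
      Finset.prod_lt_prod_of_nonempty (fun _ _ => hG) (fun i _ => hc i) hne
    rw [Finset.prod_const, Finset.card_univ, Fintype.card_fin, hprod] at h1
    exact lt_irrefl _ h1
  have hhigh : ∃ i, G ≤ x i := by
    by_contra hc
    push Not at hc
    have h1 : ∏ i, x i < ∏ _i : Fin t, G :=
      Finset.prod_lt_prod_of_nonempty (fun i _ => hx i) (fun i _ => hc i) hne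
    rw [Finset.prod_const, Finset.card_univ, Fintype.card_fin, hprod] at h1
    exact lt_irrefl _ h1
  obtain ⟨i₁, h1⟩ := hlow
  obtain ⟨i₂, h2⟩ := hhigh
  have hdist : ∀ i, |x i - G| ≤ Y := by
    intro i
    rw [abs_le]
    have h3 := abs_le.1 (hY i i₁)
    have h4 := abs_le.1 (hY i i₂)
    constructor <;> linarith
  refine ⟨hdist, ?_⟩
  set z : Fin t → ℝ := fun i => x i / G - 1 with hz
  have hzb : ∀ i, |z i| ≤ Y / G := by
    intro i
    have : z i = (x i - G) / G := by simp only [hz]; field_simp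
    rw [this, abs_div, abs_of_pos hG]
    exact div_le_div_of_nonneg_right (hdist i) hG.le
  have hYG' : Y / G ≤ 1 / 2 := by
    rw [div_le_iff₀ hG]; linarith
  have hlog : ∑ i, Real.log (1 + z i) = 0 := by
    have h3 : ∀ i, 1 + z i = x i / G := fun i => by simp only [hz]; ring
    have h4 : ∏ i, (x i / G) = 1 := by
      rw [Finset.prod_div_distrib, hprod, Finset.prod_const, Finset.card_univ, Fintype.card_fin]
      exact div_self (pow_pos hG t).ne'
    have h5 : Real.log (∏ i, (x i / G)) = ∑ i, Real.log (x i / G) :=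
      Real.log_prod (fun i _ => (div_pos (hx i) hG).ne')
    rw [h4, Real.log_one] at h5
    rw [h5]
    exact Finset.sum_congr rfl fun i _ => by rw [h3]
  have hsum : ∑ i, x i - t * G = G * ∑ i, (z i - Real.log (1 + z i)) := by
    rw [Finset.sum_sub_distrib, hlog, sub_zero]
    simp only [hz]
    rw [Finset.sum_sub_distrib, Finset.sum_const, Finset.card_univ, Fintype.card_fin,
      nsmul_eq_mul, mul_one, ← Finset.sum_div]
    field_simp
  rw [hsum, abs_mul, abs_of_pos hG]
  have hb : |∑ i, (z i - Real.log (1 + z i))| ≤ t * (2 * (Y / G) ^ 2) := by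
    calc |∑ i, (z i - Real.log (1 + z i))| ≤ ∑ i, |z i - Real.log (1 + z i)| :=
          Finset.abs_sum_le_sum_abs _ _
      _ ≤ ∑ _i : Fin t, 2 * (Y / G) ^ 2 := by
          refine Finset.sum_le_sum fun i _ => ?_
          refine (log_bounds ((hzb i).trans hYG')).trans ?_
          have h6 : z i ^ 2 ≤ (Y / G) ^ 2 := by
            rw [← sq_abs]
            exact pow_le_pow_left₀ (abs_nonneg _) (hzb i) 2
          linarith
      _ = t * (2 * (Y / G) ^ 2) := by
          rw [Finset.sum_const, Finset.card_univ, Fintype.card_fin, nsmul_eq_mul]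
  calc G * |∑ i, (z i - Real.log (1 + z i))| ≤ G * (t * (2 * (Y / G) ^ 2)) :=
        mul_le_mul_of_nonneg_left hb hG.le
    _ = 2 * t * (Y ^ 2 / G) := by field_simp

/-- comparison of two powers with exponent `r ≤ 1` -/
lemma rpow_near {a c r : ℝ} (ha : 0 ≤ a) (hc : 0 < c) (hr0 : 0 ≤ r) (hr1 : r ≤ 1) :
    |a ^ r - c ^ r| ≤ c ^ r * (|a - c| / c) := by
  set z : ℝ := a / c with hz
  have hz0 : 0 ≤ z := div_nonneg ha hc.le
  have h1 : a = c * z := by rw [hz]; field_simp
  have h2 : |z ^ r - 1| ≤ |z - 1| := by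
    rcases le_total z 1 with h | h
    · have h3 : z ^ r ≤ 1 := Real.rpow_le_one hz0 h hr0
      have h4 : z ≤ z ^ r := by
        rcases eq_or_lt_of_le hz0 with h0 | h0
        · rw [← h0]
          exact Real.rpow_nonneg le_rfl r
        · calc z = z ^ (1 : ℝ) := (Real.rpow_one z).symm
            _ ≤ z ^ r := Real.rpow_le_rpow_of_exponent_ge h0 h hr1
      rw [abs_of_nonpos (by linarith), abs_of_nonpos (by linarith)]
      linarith
    · have h3 : 1 ≤ z ^ r := Real.one_le_rpow h hr0
      have h4 : z ^ r ≤ z := by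
        calc z ^ r ≤ z ^ (1 : ℝ) := Real.rpow_le_rpow_of_exponent_le h hr1
          _ = z := Real.rpow_one z
      rw [abs_of_nonneg (by linarith), abs_of_nonneg (by linarith)]
      linarith
  have h3 : a ^ r - c ^ r = c ^ r * (z ^ r - 1) := by
    rw [h1, Real.mul_rpow hc.le hz0]
    ring
  have h4 : |a - c| / c = |z - 1| := by
    have : z - 1 = (a - c) / c := by rw [hz]; field_simp
    rw [this, abs_div, abs_of_pos hc]
  rw [h3, abs_mul, abs_of_nonneg (Real.rpow_nonneg hc.le r), h4]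
  exact mul_le_mul_of_nonneg_left h2 (Real.rpow_nonneg hc.le r)

end Pool.Agent.J4.H64.FL
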