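import Mathlib
import Pool.Agent.R333.SubR
import Pool.Agent.J4.H64.FL.Basic

/-!
# The three variable subspace argument for factorizations of Fibonacci and Lucas numbers
-/

set_option autoImplicit false

namespace Pool.Agent.J4.H64.FL

open Finset Filter Topology Real
open Pool.Agent.R333.SubR

lemma abs_conj : |goldenConj| = goldenRatio⁻¹ := by
  rw [inv_goldenRatio, abs_of_neg goldenConj_neg]

lemma abs_conj_pow_le_one (k : ℕ) : |goldenConj ^ k| ≤ 1 := by
  rw [abs_pow, abs_conj]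
  exact pow_le_one₀ (inv_nonneg.2 goldenRatio_pos.le) (inv_le_one_of_one_le₀ one_lt_goldenRatio.le)

lemma sqrt5_pos : (0 : ℝ) < √5 := Real.sqrt_pos.2 (by norm_num)

lemma two_lt_sqrt5 : (2 : ℝ) < √5 := by
  rw [show (2 : ℝ) = √(2 ^ 2) by rw [Real.sqrt_sq (by norm_num)]]
  exact Real.sqrt_lt_sqrt (by norm_num) (by norm_num)

lemma fib_le_pow (k : ℕ) : (Nat.fib k : ℝ) ≤ goldenRatio ^ k := by
  rw [coe_fib_eq, div_le_iff₀ sqrt5_pos]
  have h1 := (abs_le.1 (abs_conj_pow_le_one k)).1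
  have h2 : (1 : ℝ) ≤ goldenRatio ^ k := one_le_pow₀ one_lt_goldenRatio.le
  nlinarith [two_lt_sqrt5]

lemma lead_zero {A B C : ℝ}
    (h : ∃ᶠ k in atTop, |A * goldenRatio ^ k + B * goldenConj ^ k| ≤ C) : A = 0 := by
  by_contra hA
  have h1 : Tendsto (fun k : ℕ => |A| * goldenRatio ^ k) atTop atTop :=
    Tendsto.const_mul_atTop (abs_pos.2 hA) (tendsto_pow_atTop_atTop_of_one_lt one_lt_goldenRatio)
  obtain ⟨k, hk, hk2⟩ := (h.and_eventually (h1.eventually_gt_atTop (C + |B|))).exists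
  have h2 : |A * goldenRatio ^ k| ≤ C + |B| := by
    have e : A * goldenRatio ^ k = (A * goldenRatio ^ k + B * goldenConj ^ k)
        - B * goldenConj ^ k := by ring
    rw [e]
    refine (abs_sub _ _).trans ?_
    rw [abs_mul B]
    have := abs_conj_pow_le_one k
    nlinarith [abs_nonneg B]
  rw [abs_mul, abs_of_pos (pow_pos goldenRatio_pos k)] at h2
  linarith

/-- the data of an exceptionally balanced factorization -/
def BadC (b t : ℕ) (F : ℕ → ℕ) (ε : ℝ) (n N K : ℕ) (x : Fin t → ℕ) : Prop :=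
  (∀ i, 0 < x i) ∧ N ∣ b ^ K ∧ ∏ i, x i = N * F n ∧
    (((N * F n : ℕ) : ℝ) ^ (1 / (t : ℝ)) ≤ goldenRatio ^ ((2 - ε) * (n : ℝ))) ∧
    ∀ i j, |(x i : ℝ) - x j| ≤ (((N * F n : ℕ) : ℝ) ^ (1 / (t : ℝ))) ^ (1 / 2 - ε)

lemma est {b t : ℕ} (hb : 2 ≤ b) (ht : 1 ≤ t) {F : ℕ → ℕ} {κ s : ℝ} (hκ : 0 < κ) (hs : |s| = 1)
    (hF : ∀ n, (F n : ℝ) = κ * (goldenRatio ^ n + s * goldenConj ^ n)) {ε : ℝ} (hε : 0 < ε) :
    ∃ C : ℝ, 0 < C ∧ ∀ᶠ n in atTop, ∀ (N K : ℕ) (x : Fin t → ℕ), BadC b t F ε n N K x →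
      ∀ u w k δ : ℕ, N = u * w ^ t → n = t * k + δ →
        w ≤ 2 ^ (2 * n) ∧
        |∑ i, (x i : ℝ) - t * ((u : ℝ) * κ) ^ (1 / (t : ℝ)) * goldenRatio ^ ((δ : ℝ) / t) * w *
          goldenRatio ^ k| ≤ C * goldenRatio ^ (-(ε / t * n)) := by
  have ht0 : (0 : ℝ) < t := by exact_mod_cast ht
  have ht1 : (1 : ℝ) ≤ t := by exact_mod_cast ht
  have htn : t ≠ 0 := by omega
  have hφ0 := goldenRatio_pos
  have hφ1 := one_lt_goldenRatio
  set c₀ : ℝ := (κ / 2) ^ (1 / (t : ℝ)) with hc₀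
  have hc₀0 : 0 < c₀ := Real.rpow_pos_of_pos (by positivity) _
  refine ⟨2 * t * c₀ ^ (-(2 * ε)) + 2 * t, by positivity, ?_⟩
  have hev1 : ∀ᶠ n : ℕ in atTop, (2 : ℝ) ≤ goldenRatio ^ n :=
    (tendsto_pow_atTop_atTop_of_one_lt hφ1).eventually_ge_atTop 2
  have hev2 : ∀ᶠ n : ℕ in atTop, 4 ≤ c₀ * (goldenRatio ^ (1 / (t : ℝ))) ^ n :=
    (Tendsto.const_mul_atTop hc₀0 (tendsto_pow_atTop_atTop_of_one_lt
      (Real.one_lt_rpow hφ1 (by positivity)))).eventually_ge_atTop 4
  filter_upwards [hev1, hev2] with n hn1 hn2 N K x hbad u w k δ hN hnk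
  obtain ⟨hx, hNb, hprod, hGle, hdiff⟩ := hbad
  have hN0 : 0 < N := Nat.pos_of_dvd_of_pos hNb (pow_pos (by omega) K)
  have hu0 : 0 < u := by
    rcases Nat.eq_zero_or_pos u with h | h
    · rw [h, zero_mul] at hN; omega
    · exact h
  have hw0 : 0 < w := by
    rcases Nat.eq_zero_or_pos w with h | h
    · rw [h, zero_pow htn, mul_zero] at hN; omega
    · exact h
  have hu0' : (0 : ℝ) < u := by exact_mod_cast hu0
  have hw0' : (0 : ℝ) < w := by exact_mod_cast hw0
  have hφn : (0 : ℝ) < goldenRatio ^ n := pow_pos hφ0 n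
  have hsψ : |s * goldenConj ^ n| ≤ 1 := by
    rw [abs_mul, hs, one_mul]
    exact abs_conj_pow_le_one n
  have hFlow : κ * goldenRatio ^ n / 2 ≤ F n := by
    rw [hF]
    have := (abs_le.1 hsψ).1
    nlinarith
  have hF0 : (0 : ℝ) < F n := lt_of_lt_of_le (by positivity) hFlow
  have hF1 : 1 ≤ F n := by
    have : 0 < F n := by exact_mod_cast hF0
    omega
  set a : ℝ := ((N * F n : ℕ) : ℝ) with ha
  have haF : (F n : ℝ) ≤ a := by
    rw [ha]
    exact_mod_cast Nat.le_mul_of_pos_left (F n) hN0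
  have ha0 : 0 < a := lt_of_lt_of_le hF0 haF
  set G : ℝ := a ^ (1 / (t : ℝ)) with hG
  have hG0 : 0 < G := Real.rpow_pos_of_pos ha0 _
  have hGpow : G ^ t = a := by
    rw [hG, one_div]
    exact Real.rpow_inv_natCast_pow ha0.le htn
  have hGlow : c₀ * (goldenRatio ^ (1 / (t : ℝ))) ^ n ≤ G := by
    have e : c₀ * (goldenRatio ^ (1 / (t : ℝ))) ^ n = (κ * goldenRatio ^ n / 2) ^ (1 / (t : ℝ)) := by
      rw [show κ * goldenRatio ^ n / 2 = κ / 2 * goldenRatio ^ n by ring,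
        Real.mul_rpow (by positivity) hφn.le, ← Real.rpow_natCast goldenRatio n,
        ← Real.rpow_mul hφ0.le, mul_comm (n : ℝ), Real.rpow_mul hφ0.le, Real.rpow_natCast]
    rw [e]
    exact Real.rpow_le_rpow (by positivity) (hFlow.trans haF) (by positivity)
  have hG4 : 4 ≤ G := hn2.trans hGlow
  have hG1 : 1 ≤ G := by linarith
  set Y : ℝ := G ^ (1 / 2 - ε) with hY
  have hY0 : 0 < Y := Real.rpow_pos_of_pos hG0 _
  have hYG : Y ≤ G / 2 := by
    have h1 : Y ≤ G ^ (1 / 2 : ℝ) := Real.rpow_le_rpow_of_exponent_le hG1 (by linarith)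
    rw [← Real.sqrt_eq_rpow] at h1
    have h2 : 2 ≤ √G := by
      rw [show (2 : ℝ) = √(2 ^ 2) by rw [Real.sqrt_sq (by norm_num)]]
      exact Real.sqrt_le_sqrt (by linarith)
    have h3 : √G * √G = G := Real.mul_self_sqrt hG0.le
    nlinarith
  have hsum := (sum_near ht (fun i => (x i : ℝ)) (fun i => by exact_mod_cast hx i) hG0
    (by rw [hGpow, ha, ← hprod]; push_cast; rfl) (Y := Y) hdiff hYG).2
  have hY2 : Y ^ 2 / G ≤ c₀ ^ (-(2 * ε)) * goldenRatio ^ (-(ε / t * n)) := by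
    have e1 : Y ^ 2 / G = G ^ (-(2 * ε)) := by
      rw [hY, ← Real.rpow_natCast (G ^ (1 / 2 - ε)) 2, ← Real.rpow_mul hG0.le,
        div_eq_iff hG0.ne']
      nth_rewrite 3 [← Real.rpow_one G]
      rw [← Real.rpow_add hG0]
      congr 1
      push_cast
      ring
    rw [e1]
    calc G ^ (-(2 * ε)) ≤ (c₀ * (goldenRatio ^ (1 / (t : ℝ))) ^ n) ^ (-(2 * ε)) :=
          Real.rpow_le_rpow_of_nonpos (by positivity) hGlow (by linarith)
      _ = c₀ ^ (-(2 * ε)) * goldenRatio ^ (-(2 * ε) / t * n) := by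
          rw [Real.mul_rpow hc₀0.le (by positivity), ← Real.rpow_natCast (goldenRatio ^ _) n,
            ← Real.rpow_mul hφ0.le, ← Real.rpow_mul hφ0.le]
          congr 2
          ring
      _ ≤ c₀ ^ (-(2 * ε)) * goldenRatio ^ (-(ε / t * n)) := by
          apply mul_le_mul_of_nonneg_left _ (Real.rpow_nonneg hc₀0.le _)
          apply Real.rpow_le_rpow_of_exponent_le hφ1.le
          have : 0 ≤ ε / t * n := by positivity
          have e2 : -(2 * ε) / t * n = -(2 * (ε / t * n)) := by ring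
          rw [e2]
          linarith
  -- the main term
  set c : ℝ := (u : ℝ) * κ * w ^ t * goldenRatio ^ n with hc
  have hc0 : 0 < c := by positivity
  have haeq : a = (u : ℝ) * κ * w ^ t * (goldenRatio ^ n + s * goldenConj ^ n) := by
    rw [ha]
    push_cast
    rw [hF, hN]
    push_cast
    ring
  have hac : |a - c| / c = (goldenRatio ^ n)⁻¹ * (goldenRatio ^ n)⁻¹ := by
    have e1 : a - c = (u : ℝ) * κ * w ^ t * (s * goldenConj ^ n) := by
      rw [haeq, hc]
      ring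
    have e2 : |s * goldenConj ^ n| = (goldenRatio ^ n)⁻¹ := by
      rw [abs_mul, hs, one_mul, abs_pow, abs_conj, inv_pow]
    rw [e1, abs_mul, e2, abs_of_pos (by positivity), hc]
    field_simp
  have hroot : c ^ (1 / (t : ℝ)) = ((u : ℝ) * κ) ^ (1 / (t : ℝ)) * goldenRatio ^ ((δ : ℝ) / t) * w *
      goldenRatio ^ k := by
    have e1 : (((u : ℝ) * κ) ^ (1 / (t : ℝ)) * goldenRatio ^ ((δ : ℝ) / t) * w *
      goldenRatio ^ k) ^ t = c := by
      rw [mul_pow, mul_pow, mul_pow, one_div, Real.rpow_inv_natCast_pow (by positivity) htn,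
        ← Real.rpow_natCast (goldenRatio ^ ((δ : ℝ) / t)) t, ← Real.rpow_mul hφ0.le,
        div_mul_cancel₀ _ ht0.ne', Real.rpow_natCast, hc, hnk, pow_add, pow_mul, pow_right_comm]
      ring
    rw [← e1, one_div]
    exact Real.pow_rpow_inv_natCast (by positivity) htn
  have hc2a : c ≤ 2 * a := by
    rw [haeq, hc]
    have h1 := (abs_le.1 hsψ).1
    have h2 : (0 : ℝ) < (u : ℝ) * κ * w ^ t := by positivity
    nlinarith
  have hcroot : c ^ (1 / (t : ℝ)) ≤ 2 * G := by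
    calc c ^ (1 / (t : ℝ)) ≤ (2 * a) ^ (1 / (t : ℝ)) :=
          Real.rpow_le_rpow hc0.le hc2a (by positivity)
      _ = 2 ^ (1 / (t : ℝ)) * G := by rw [Real.mul_rpow (by norm_num) ha0.le]
      _ ≤ 2 * G := by
          apply mul_le_mul_of_nonneg_right _ hG0.le
          calc (2 : ℝ) ^ (1 / (t : ℝ)) ≤ 2 ^ (1 : ℝ) := by
                apply Real.rpow_le_rpow_of_exponent_le (by norm_num)
                rw [div_le_one ht0]
                exact ht1
            _ = 2 := Real.rpow_one 2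
  have hnear := rpow_near ha0.le hc0 (r := 1 / (t : ℝ)) (by positivity)
    (by rw [div_le_one ht0]; exact ht1)
  have hnear2 : |G - c ^ (1 / (t : ℝ))| ≤ 2 * goldenRatio ^ (-(ε / t * n)) := by
    refine hnear.trans ?_
    rw [hac]
    have h1 : goldenRatio ^ ((2 - ε) * (n : ℝ)) =
        goldenRatio ^ (-(ε * n)) * (goldenRatio ^ n * goldenRatio ^ n) := by
      rw [← Real.rpow_natCast goldenRatio n, ← Real.rpow_add hφ0, ← Real.rpow_add hφ0]
      congr 1
      ring
    calc c ^ (1 / (t : ℝ)) * ((goldenRatio ^ n)⁻¹ * (goldenRatio ^ n)⁻¹)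
        ≤ (2 * goldenRatio ^ ((2 - ε) * (n : ℝ))) * ((goldenRatio ^ n)⁻¹ * (goldenRatio ^ n)⁻¹) := by
          apply mul_le_mul_of_nonneg_right _ (by positivity)
          linarith
      _ = 2 * goldenRatio ^ (-(ε * n)) := by
          rw [h1]
          generalize goldenRatio ^ (-(ε * (n : ℝ))) = A
          have hB := hφn.ne'
          generalize goldenRatio ^ n = B at hB
          field_simp
      _ ≤ 2 * goldenRatio ^ (-(ε / t * n)) := by
          apply mul_le_mul_of_nonneg_left _ (by norm_num)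
          apply Real.rpow_le_rpow_of_exponent_le hφ1.le
          have h3 : ε / t ≤ ε := div_le_self hε.le ht1
          have h4 : (0 : ℝ) ≤ n := Nat.cast_nonneg n
          nlinarith
  refine ⟨?_, ?_⟩
  · -- the size of `w`
    have h1 : (w : ℝ) ^ t ≤ a := by
      have h2 : w ^ t ≤ N * F n := by
        calc w ^ t ≤ u * w ^ t := Nat.le_mul_of_pos_left _ hu0
          _ = N := hN.symm
          _ ≤ N * F n := Nat.le_mul_of_pos_right _ hF1
      rw [ha]
      exact_mod_cast h2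
    have h2 : (w : ℝ) ≤ G := by
      rw [← hGpow] at h1
      exact le_of_pow_le_pow_left₀ htn hG0.le h1
    have h3 : (w : ℝ) ≤ 2 ^ (2 * n) := by
      calc (w : ℝ) ≤ G := h2
        _ ≤ goldenRatio ^ ((2 - ε) * (n : ℝ)) := hGle
        _ ≤ goldenRatio ^ (((2 * n : ℕ)) : ℝ) := by
            apply Real.rpow_le_rpow_of_exponent_le hφ1.le
            push_cast
            have h4 : (0 : ℝ) ≤ n := Nat.cast_nonneg n
            nlinarith
        _ = goldenRatio ^ (2 * n) := Real.rpow_natCast _ _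
        _ ≤ 2 ^ (2 * n) := pow_le_pow_left₀ hφ0.le goldenRatio_lt_two.le _
    exact_mod_cast h3
  · have e1 : ∑ i, (x i : ℝ) - t * ((u : ℝ) * κ) ^ (1 / (t : ℝ)) * goldenRatio ^ ((δ : ℝ) / t) * w *
          goldenRatio ^ k = (∑ i, (x i : ℝ) - t * G) + t * (G - c ^ (1 / (t : ℝ))) := by
      rw [hroot]
      ring
    rw [e1]
    refine (abs_add_le _ _).trans ?_
    rw [abs_mul, abs_of_pos ht0, add_mul]
    apply add_le_add
    · calc |∑ i, (x i : ℝ) - t * G| ≤ 2 * t * (Y ^ 2 / G) := hsum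
        _ ≤ 2 * t * (c₀ ^ (-(2 * ε)) * goldenRatio ^ (-(ε / t * n))) :=
            mul_le_mul_of_nonneg_left hY2 (by positivity)
        _ = _ := by ring
    · calc t * |G - c ^ (1 / (t : ℝ))| ≤ t * (2 * goldenRatio ^ (-(ε / t * n))) :=
            mul_le_mul_of_nonneg_left hnear2 ht0.le
        _ = _ := by ring

theorem core {b t : ℕ} (hb : 2 ≤ b) (ht : 1 ≤ t) {F : ℕ → ℕ} {κ s : ℝ} (hκ : 0 < κ)
    (hκa : IsAlgebraic ℚ κ) (hs : |s| = 1)
    (hF : ∀ n, (F n : ℝ) = κ * (goldenRatio ^ n + s * goldenConj ^ n)) {ε : ℝ} (hε : 0 < ε)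
    (Q : ℕ → ℕ → (Fin t → ℕ) → Prop)
    (hfr : ∃ᶠ n in atTop, ∃ (N K : ℕ) (x : Fin t → ℕ), BadC b t F ε n N K x ∧ Q n N x) :
    ∃ (δ u : ℕ) (p q : ℚ), δ < t ∧ 0 < u ∧
      √5 * (t * ((u : ℝ) * κ) ^ (1 / (t : ℝ)) * goldenRatio ^ ((δ : ℝ) / t))
        = p + q * goldenRatio ∧
      ∃ᶠ n in atTop, ∃ (k N w : ℕ) (x : Fin t → ℕ), n = t * k + δ ∧ 0 < w ∧ N = u * w ^ t ∧
        Q n N x ∧ ∏ i, x i = N * F n ∧
        (∑ i, (x i : ℚ)) = w * (p * Nat.fib k + q * Nat.fib (k + 1)) := by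
  have ht0 : (0 : ℝ) < t := by exact_mod_cast ht
  have htn : t ≠ 0 := by omega
  have hφ0 := goldenRatio_pos
  have hφ1 := one_lt_goldenRatio
  have hb0 : (0 : ℝ) < b := by exact_mod_cast (by omega : 0 < b)
  have hb1 : (1 : ℝ) < b := by exact_mod_cast (by omega : 1 < b)
  have hLb : 0 < Real.log b := Real.log_pos hb1
  have hLφ : 0 < Real.log goldenRatio := Real.log_pos hφ1
  have hL2 : Real.log 2 ≤ Real.log b := Real.log_le_log (by norm_num) (by exact_mod_cast hb)
  have hL20 : 0 < Real.log 2 := Real.log_pos (by norm_num)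
  obtain ⟨C₀, hC₀, hest⟩ := est hb ht hκ hs hF hε
  set lam : ℝ := Real.log goldenRatio / Real.log b with hlam
  have hlam0 : 0 < lam := div_pos hLφ hLb
  have hφb : ∀ r : ℝ, goldenRatio ^ r = (b : ℝ) ^ (lam * r) := by
    intro r
    rw [Real.rpow_def_of_pos hφ0, Real.rpow_def_of_pos hb0, hlam]
    congr 1
    field_simp
  set e₃ : ℝ := ε / t with he₃
  have he₃0 : 0 < e₃ := by positivity
  set η : ℝ := e₃ * lam / 4 with hη
  have hη0 : 0 < η := by positivity
  set I : ℕ := ⌈2 / η⌉₊ with hI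
  -- pigeonhole
  have hfr2 : ∃ᶠ n in atTop, ∃ j : Fin t × Fin (b ^ t + 1) × Fin (I + 1), 1 ≤ n ∧
      ∃ (N w : ℕ) (x : Fin t → ℕ), ∏ i, x i = N * F n ∧ Q n N x ∧ n = t * (n / t) + (j.1 : ℕ) ∧
        N = (j.2.1 : ℕ) * w ^ t ∧ (∃ K, w ∣ b ^ K) ∧ 0 < w ∧ 0 < (j.2.1 : ℕ) ∧
        ((j.2.2 : ℕ) : ℝ) * η * (n * Real.log b) ≤ Real.log w ∧
        Real.log w ≤ (((j.2.2 : ℕ) : ℝ) + 1) * η * (n * Real.log b) ∧ w ≤ 2 ^ (2 * n) ∧
        |∑ i, (x i : ℝ) - t * (((j.2.1 : ℕ) : ℝ) * κ) ^ (1 / (t : ℝ)) *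
          goldenRatio ^ (((j.1 : ℕ) : ℝ) / t) * w * goldenRatio ^ (n / t)|
            ≤ C₀ * goldenRatio ^ (-(ε / t * n)) := by
    refine ((hfr.and_eventually hest).and_eventually (eventually_ge_atTop 1)).mono ?_
    rintro n ⟨⟨⟨N, K, x, hbad, hQ⟩, hes⟩, hn⟩
    have hbad' := hbad
    obtain ⟨hx, hNb, hprod, hGle, hdiff⟩ := hbad
    have hN0 : 0 < N := Nat.pos_of_dvd_of_pos hNb (pow_pos (by omega) K)
    obtain ⟨u, w, hN, hu, hw⟩ := exists_free_part (t := t) (by omega : b ≠ 0) ht hNb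
    have hu0 : 0 < u := by
      rcases Nat.eq_zero_or_pos u with h | h
      · rw [h, zero_mul] at hN; omega
      · exact h
    have hw0 : 0 < w := by
      rcases Nat.eq_zero_or_pos w with h | h
      · rw [h, zero_pow htn, mul_zero] at hN; omega
      · exact h
    have hub : u < b ^ t + 1 := Nat.lt_succ_of_le (Nat.le_of_dvd (pow_pos (by omega) t) hu)
    obtain ⟨hwn, hes2⟩ := hes N K x hbad' u w (n / t) (n % t) hN (Nat.div_add_mod n t).symm
    have hw1 : (1 : ℝ) ≤ w := by exact_mod_cast hw0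
    have hL0 : 0 ≤ Real.log w := Real.log_nonneg hw1
    have hn0 : (0 : ℝ) < n * Real.log b := mul_pos (by exact_mod_cast hn) hLb
    have hn0' : (0 : ℝ) < n := by exact_mod_cast hn
    have hL1 : Real.log w ≤ 2 * (n * Real.log b) := by
      have h1 : (w : ℝ) ≤ 2 ^ (2 * n) := by exact_mod_cast hwn
      have h2 := Real.log_le_log (by linarith) h1
      rw [Real.log_pow] at h2
      push_cast at h2
      nlinarith
    refine ⟨⟨⟨n % t, Nat.mod_lt _ (by omega)⟩, ⟨u, hub⟩,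
      ⟨⌊Real.log w / (η * (n * Real.log b))⌋₊, ?_⟩⟩, hn, N, w, x, hprod, hQ,
        (Nat.div_add_mod n t).symm, hN, ⟨K, hw⟩, hw0, hu0, ?_, ?_, hwn, hes2⟩
    · rw [Nat.lt_succ_iff, hI]
      refine (Nat.floor_le_floor ?_).trans (Nat.floor_le_ceil _)
      rw [div_le_div_iff₀ (mul_pos hη0 hn0) hη0]
      nlinarith
    · have a1 := Nat.floor_le (a := Real.log w / (η * (n * Real.log b)))
        (div_nonneg hL0 (mul_pos hη0 hn0).le)
      rw [le_div_iff₀ (mul_pos hη0 hn0)] at a1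
      simp only
      linarith
    · have a1 := (Nat.lt_floor_add_one (Real.log w / (η * (n * Real.log b)))).le
      rw [div_le_iff₀ (mul_pos hη0 hn0)] at a1
      simp only
      linarith
  obtain ⟨⟨δ, u, i⟩, hfi⟩ := freq_fin hfr2
  clear hfr hfr2
  simp only at hfi
  set Γ : ℝ := t * (((u : ℕ) : ℝ) * κ) ^ (1 / (t : ℝ)) * goldenRatio ^ (((δ : ℕ) : ℝ) / t)
    with hΓ
  set P : ℕ → Prop := fun n => 1 ≤ n ∧
      ∃ (N w : ℕ) (x : Fin t → ℕ), ∏ i, x i = N * F n ∧ Q n N x ∧ n = t * (n / t) + (δ : ℕ) ∧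
        N = (u : ℕ) * w ^ t ∧ (∃ K, w ∣ b ^ K) ∧ 0 < w ∧ 0 < (u : ℕ) ∧
        ((i : ℕ) : ℝ) * η * (n * Real.log b) ≤ Real.log w ∧
        Real.log w ≤ (((i : ℕ) : ℝ) + 1) * η * (n * Real.log b) ∧ w ≤ 2 ^ (2 * n) ∧
        |∑ i, (x i : ℝ) - Γ * w * goldenRatio ^ (n / t)|
            ≤ C₀ * goldenRatio ^ (-(ε / t * n)) with hP
  have hex : ∀ n, P n → ∃ (N w : ℕ) (x : Fin t → ℕ), ∏ i, x i = N * F n ∧ Q n N x ∧
        n = t * (n / t) + (δ : ℕ) ∧
        N = (u : ℕ) * w ^ t ∧ (∃ K, w ∣ b ^ K) ∧ 0 < w ∧ 0 < (u : ℕ) ∧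
        ((i : ℕ) : ℝ) * η * (n * Real.log b) ≤ Real.log w ∧
        Real.log w ≤ (((i : ℕ) : ℝ) + 1) * η * (n * Real.log b) ∧ w ≤ 2 ^ (2 * n) ∧
        |∑ i, (x i : ℝ) - Γ * w * goldenRatio ^ (n / t)|
            ≤ C₀ * goldenRatio ^ (-(ε / t * n)) := fun n h => h.2
  choose! N w x hdat using hex
  have hu0 : 0 < (u : ℕ) := by
    obtain ⟨n, hn⟩ := hfi.exists
    exact (hdat n hn).2.2.2.2.2.2.1
  have hκ' : IsAlgebraic ℚ ((((u : ℕ) : ℝ) * κ) ^ (1 / (t : ℝ))) := by
    rw [one_div]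
    apply IsAlgebraic.of_pow (n := t) (by omega)
    rw [Real.rpow_inv_natCast_pow (by positivity) htn]
    exact (isAlgebraic_natCast (u : ℕ)).mul hκa
  have hφalg : IsAlgebraic ℚ goldenRatio := by
    have h5 : IsAlgebraic ℚ √5 := by
      apply IsAlgebraic.of_pow (n := 2) (by norm_num)
      rw [Real.sq_sqrt (by norm_num)]
      exact_mod_cast (isAlgebraic_natCast 5 : IsAlgebraic ℚ ((5 : ℕ) : ℝ))
    have h2' : IsAlgebraic ℚ (2 : ℝ) := by
      exact_mod_cast (isAlgebraic_natCast 2 : IsAlgebraic ℚ ((2 : ℕ) : ℝ))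
    have h2 : IsAlgebraic ℚ ((2 : ℝ)⁻¹) := h2'.inv
    have : goldenRatio = (1 + √5) * 2⁻¹ := by
      rw [goldenRatio]; ring
    rw [this]
    exact (isAlgebraic_one.add h5).mul h2
  have hψalg : IsAlgebraic ℚ goldenConj := by
    have : goldenConj = 1 + -goldenRatio := by
      have := goldenRatio_add_goldenConj; linarith
    rw [this]
    exact isAlgebraic_one.add hφalg.neg
  have hΓalg : IsAlgebraic ℚ Γ := by
    rw [hΓ]
    refine ((isAlgebraic_natCast t).mul hκ').mul ?_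
    apply IsAlgebraic.of_pow (n := t) (by omega)
    rw [← Real.rpow_natCast (goldenRatio ^ (((δ : ℕ) : ℝ) / t)) t, ← Real.rpow_mul hφ0.le,
        div_mul_cancel₀ _ ht0.ne', Real.rpow_natCast]
    exact hφalg.pow _
  have hb2 : (b : ℕ) ≤ 2 ^ b := Nat.lt_two_pow_self.le
  -- bounds for the three forms
  have hwb : ∀ m, P m → (w m : ℝ) ≤ (b : ℝ) ^ ((((i : ℕ) : ℝ) + 1) * η * m) := by
    intro m hm
    obtain ⟨-, -, -, -, -, h6, -, -, h9, -, -⟩ := hdat m hm
    have hw0 : (0 : ℝ) < w m := by exact_mod_cast h6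
    rw [← Real.exp_log hw0, Real.rpow_def_of_pos hb0]
    apply Real.exp_le_exp.2
    calc Real.log (w m) ≤ (((i : ℕ) : ℝ) + 1) * η * (m * Real.log b) := h9
      _ = Real.log b * ((((i : ℕ) : ℝ) + 1) * η * m) := by ring
  obtain ⟨y, hy, hfy⟩ := sub_real (n := 3) (by norm_num) b hb
    (Matrix.of ![![1, 0, 0], ![-goldenRatio, 1, 0], ![Γ * goldenConj, -Γ, 1]])
    (by
      intro i j
      have h1 : IsAlgebraic ℚ (1 : ℝ) := isAlgebraic_one
      have h0 : IsAlgebraic ℚ (0 : ℝ) := isAlgebraic_zero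
      fin_cases i <;> fin_cases j <;> simp [h0, h1, hφalg.neg, hΓalg.neg, hΓalg.mul hψalg])
    (by
      intro i j hij
      fin_cases i <;> fin_cases j <;> simp at hij ⊢)
    (by intro i; fin_cases i <;> simp)
    P hfi
    (fun m => ![(w m : ℤ) * Nat.fib (m / t), (w m : ℤ) * Nat.fib (m / t + 1),
      ((∑ i, x m i : ℕ) : ℤ)])
    (by
      intro m hm h
      have h2 := congrFun h 1
      obtain ⟨-, -, -, -, -, h6, -⟩ := hdat m hm
      have h3 : 0 < Nat.fib (m / t + 1) := Nat.fib_pos.2 (Nat.succ_pos _)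
      simp at h2
      omega)
    (fun m => ![w m, w m, 1]) (2 * b + 1)
    (by
      intro m l hm
      obtain ⟨-, -, -, -, ⟨K, hK⟩, h6, -, -, -, h10, -⟩ := hdat m hm
      have hm1 : 1 ≤ m := hm.1
      have a1 : w m < 2 ^ ((2 * b + 1) * m) := by
        refine h10.trans_lt (Nat.pow_lt_pow_right (by norm_num) ?_)
        nlinarith
      fin_cases l
      · exact dvd_pow_of_lt (by omega) hK a1
      · exact dvd_pow_of_lt (by omega) hK a1
      · simp)
    (by
      intro m l hm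
      fin_cases l
      · simp
      · simp
      · simp)
    ![(((i : ℕ) : ℝ) + 1) * η + lam / t, (((i : ℕ) : ℝ) + 1) * η - lam / t, -(e₃ * lam)]
    (2 + C₀) (by positivity)
    (by
      intro m l hm
      have hwm := hwb m hm
      obtain ⟨-, -, h3, -, -, h6, -, -, -, -, h11⟩ := hdat m hm
      have hw0 : (0 : ℝ) < w m := by exact_mod_cast h6
      have hmt : (m : ℝ) = t * ((m / t : ℕ) : ℝ) + ((δ : ℕ) : ℝ) := by
        exact_mod_cast h3
      have hδt : ((δ : ℕ) : ℝ) < t := by exact_mod_cast δ.2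
      have hδ0 : (0 : ℝ) ≤ ((δ : ℕ) : ℝ) := Nat.cast_nonneg _
      have hk1 : ((m / t : ℕ) : ℝ) ≤ m / t := by
        rw [le_div_iff₀ ht0, hmt]
        nlinarith
      have hk2 : (m : ℝ) / t - 1 ≤ ((m / t : ℕ) : ℝ) := by
        have : (m : ℝ) / t ≤ ((m / t : ℕ) : ℝ) + 1 := by
          rw [div_le_iff₀ ht0]
          nlinarith
        linarith
      fin_cases l
      · simp only [Fin.zero_eta, Fin.isValue, Matrix.of_apply, Fin.sum_univ_three,
          Matrix.cons_val_zero, Matrix.cons_val_one, Matrix.cons_val]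
        push_cast
        have e1 : 1 * ((w m : ℝ) * Nat.fib (m / t)) + 0 * ((w m : ℝ) * Nat.fib (m / t + 1)) +
            0 * ∑ i, (x m i : ℝ) = (w m : ℝ) * Nat.fib (m / t) := by ring
        rw [e1, abs_of_nonneg (by positivity)]
        have hpw : goldenRatio ^ (m / t) ≤ (b : ℝ) ^ (lam * (m / t)) := by
          rw [← hφb, ← Real.rpow_natCast goldenRatio (m / t)]
          exact Real.rpow_le_rpow_of_exponent_le hφ1.le hk1
        calc (w m : ℝ) * Nat.fib (m / t)
            ≤ (b : ℝ) ^ ((((i : ℕ) : ℝ) + 1) * η * m) * (b : ℝ) ^ (lam * (m / t)) :=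
              mul_le_mul hwm ((fib_le_pow _).trans hpw) (Nat.cast_nonneg _)
                (Real.rpow_nonneg hb0.le _)
          _ = (b : ℝ) ^ (((((i : ℕ) : ℝ) + 1) * η + lam / t) * m) := by
              rw [← Real.rpow_add hb0]
              congr 1
              ring
          _ ≤ (2 + C₀) * (b : ℝ) ^ (((((i : ℕ) : ℝ) + 1) * η + lam / t) * m) :=
              le_mul_of_one_le_left (Real.rpow_nonneg hb0.le _) (by linarith)
      · simp only [Fin.mk_one, Fin.isValue, Matrix.of_apply, Fin.sum_univ_three,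
          Matrix.cons_val_zero, Matrix.cons_val_one, Matrix.cons_val]
        push_cast
        have e1 : -goldenRatio * ((w m : ℝ) * Nat.fib (m / t)) +
            1 * ((w m : ℝ) * Nat.fib (m / t + 1)) + 0 * ∑ i, (x m i : ℝ)
              = (w m : ℝ) * goldenConj ^ (m / t) := by
          rw [← fib_succ_sub_goldenRatio_mul_fib]
          ring
        rw [e1, abs_mul, abs_of_pos hw0, abs_pow, abs_conj]
        have hpw : goldenRatio⁻¹ ^ (m / t) ≤ 2 * (b : ℝ) ^ (-(lam * (m / t))) := by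
          have e2 : (b : ℝ) ^ (-(lam * (m / t))) = goldenRatio ^ (-((m : ℝ) / t)) := by
            rw [hφb]
            congr 1
            ring
          have e3 : goldenRatio⁻¹ ^ (m / t) = goldenRatio ^ (-((m / t : ℕ) : ℝ)) := by
            rw [Real.rpow_neg hφ0.le, Real.rpow_natCast, inv_pow]
          rw [e2, e3]
          calc goldenRatio ^ (-((m / t : ℕ) : ℝ)) ≤ goldenRatio ^ (1 + -((m : ℝ) / t)) :=
                Real.rpow_le_rpow_of_exponent_le hφ1.le (by linarith)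
            _ = goldenRatio * goldenRatio ^ (-((m : ℝ) / t)) := by
                rw [Real.rpow_add hφ0, Real.rpow_one]
            _ ≤ 2 * goldenRatio ^ (-((m : ℝ) / t)) :=
                mul_le_mul_of_nonneg_right goldenRatio_lt_two.le (Real.rpow_nonneg hφ0.le _)
        calc (w m : ℝ) * goldenRatio⁻¹ ^ (m / t)
            ≤ (b : ℝ) ^ ((((i : ℕ) : ℝ) + 1) * η * m) * (2 * (b : ℝ) ^ (-(lam * (m / t)))) :=
              mul_le_mul hwm hpw (pow_nonneg (inv_nonneg.2 hφ0.le) _)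
                (Real.rpow_nonneg hb0.le _)
          _ = 2 * (b : ℝ) ^ (((((i : ℕ) : ℝ) + 1) * η - lam / t) * m) := by
              rw [mul_left_comm, ← Real.rpow_add hb0]
              congr 2
              ring
          _ ≤ (2 + C₀) * (b : ℝ) ^ (((((i : ℕ) : ℝ) + 1) * η - lam / t) * m) :=
              mul_le_mul_of_nonneg_right (by linarith) (Real.rpow_nonneg hb0.le _)
      · simp only [Fin.reduceFinMk, Fin.isValue, Matrix.of_apply, Fin.sum_univ_three,
          Matrix.cons_val_zero, Matrix.cons_val_one, Matrix.cons_val]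
        push_cast
        have e1 : Γ * goldenConj * ((w m : ℝ) * Nat.fib (m / t)) +
            -Γ * ((w m : ℝ) * Nat.fib (m / t + 1)) + 1 * ∑ i, (x m i : ℝ)
              = ∑ i, (x m i : ℝ) - Γ * w m * goldenRatio ^ (m / t) := by
          rw [← fib_succ_sub_goldenConj_mul_fib]
          ring
        rw [e1]
        calc |∑ i, (x m i : ℝ) - Γ * w m * goldenRatio ^ (m / t)|
            ≤ C₀ * goldenRatio ^ (-(ε / t * m)) := h11
          _ = C₀ * (b : ℝ) ^ (-(e₃ * lam) * m) := by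
              rw [hφb, he₃]
              congr 2
              ring
          _ ≤ (2 + C₀) * (b : ℝ) ^ (-(e₃ * lam) * m) :=
              mul_le_mul_of_nonneg_right (by linarith) (Real.rpow_nonneg hb0.le _))
    (e₃ * lam / 2) (by positivity)
    (by
      intro m hm
      obtain ⟨-, -, -, -, -, h6, -, h8, -, -, -⟩ := hdat m hm
      simp only [Fin.sum_univ_three, Matrix.cons_val_zero, Matrix.cons_val_one, Matrix.cons_val]
      rw [Nat.cast_one, Real.log_one, add_zero]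
      have e1 : ((((i : ℕ) : ℝ) + 1) * η + lam / t + ((((i : ℕ) : ℝ) + 1) * η - lam / t)
          + -(e₃ * lam) + e₃ * lam / 2) * m * Real.log b
          = 2 * (((i : ℕ) : ℝ) * η * (m * Real.log b)) := by
        rw [hη]
        ring
      rw [e1]
      linarith)
  simp only [Fin.sum_univ_three, Matrix.cons_val_zero, Matrix.cons_val_one, Matrix.cons_val]
    at hfy
  have htd : Tendsto (fun m : ℕ => m / t) atTop atTop := Nat.tendsto_div_const_atTop htn
  have hfibR : ∀ k : ℕ, (Nat.fib k : ℝ) = (goldenRatio ^ k - goldenConj ^ k) / √5 := coe_fib_eq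
  -- the last coefficient is not zero
  have hlin : ∀ (p q : ℝ) (k : ℕ), p * Nat.fib k + q * Nat.fib (k + 1)
      = (p + q * goldenRatio) / √5 * goldenRatio ^ k
        + (-(p + q * goldenConj) / √5) * goldenConj ^ k := by
    intro p q k
    rw [hfibR, hfibR, pow_succ, pow_succ]
    ring
  have hy2 : y 2 ≠ 0 := by
    intro h0
    have h1 : ∃ᶠ k in atTop, |((y 0 : ℝ) + y 1 * goldenRatio) / √5 * goldenRatio ^ k
        + (-((y 0 : ℝ) + y 1 * goldenConj) / √5) * goldenConj ^ k| ≤ 0 := by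
      refine htd.frequently (hfy.mono ?_)
      rintro m ⟨hm, hrel⟩
      rw [h0, zero_mul, add_zero] at hrel
      have h6 : 0 < w m := (hdat m hm).2.2.2.2.2.1
      have h7 : (w m : ℤ) * (y 0 * Nat.fib (m / t) + y 1 * Nat.fib (m / t + 1)) = 0 := by
        linarith
      have h8 : y 0 * (Nat.fib (m / t) : ℤ) + y 1 * (Nat.fib (m / t + 1) : ℤ) = 0 := by
        rcases mul_eq_zero.1 h7 with h | h
        · omega
        · exact h
      have h9 : (y 0 : ℝ) * Nat.fib (m / t) + y 1 * Nat.fib (m / t + 1) = 0 := by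
        exact_mod_cast h8
      rw [← hlin, h9, abs_zero]
    have h2 := lead_zero h1
    have h3 : (y 0 : ℝ) + y 1 * goldenRatio = 0 := by
      rcases div_eq_zero_iff.1 h2 with h | h
      · exact h
      · exact absurd h sqrt5_pos.ne'
    have h4 : y 1 = 0 := by
      by_contra h5
      apply goldenRatio_irrational
      refine ⟨-(y 0 : ℚ) / y 1, ?_⟩
      have h6 : (y 1 : ℝ) ≠ 0 := by exact_mod_cast h5
      push_cast
      rw [div_eq_iff h6]
      linarith
    have h5 : y 0 = 0 := by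
      rw [h4, Int.cast_zero, zero_mul, add_zero] at h3
      exact_mod_cast h3
    apply hy
    funext l
    fin_cases l
    · exact h5
    · exact h4
    · exact h0
  have hy2' : (y 2 : ℝ) ≠ 0 := by exact_mod_cast hy2
  have hy2q : (y 2 : ℚ) ≠ 0 := by exact_mod_cast hy2
  set p : ℚ := -(y 0 : ℚ) / y 2 with hp
  set q : ℚ := -(y 1 : ℚ) / y 2 with hq
  have hX : ∀ m, P m → y 0 * ((w m : ℤ) * Nat.fib (m / t)) + y 1 * ((w m : ℤ) *
      Nat.fib (m / t + 1)) + y 2 * ((∑ i, x m i : ℕ) : ℤ) = 0 →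
      (∑ i, (x m i : ℚ)) = w m * (p * Nat.fib (m / t) + q * Nat.fib (m / t + 1)) := by
    intro m _ h
    have h2 : (y 0 : ℚ) * ((w m : ℚ) * Nat.fib (m / t)) + y 1 * ((w m : ℚ) *
      Nat.fib (m / t + 1)) + y 2 * ∑ i, (x m i : ℚ) = 0 := by exact_mod_cast h
    rw [hp, hq]
    field_simp
    linarith
  refine ⟨δ, u, p, q, δ.2, hu0, ?_, ?_⟩
  · -- the irrational number `Γ`
    rw [← hΓ]
    have h1 : ∃ᶠ k in atTop, |(((p : ℝ) + q * goldenRatio) / √5 - Γ) * goldenRatio ^ k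
        + (-((p : ℝ) + q * goldenConj) / √5) * goldenConj ^ k| ≤ C₀ := by
      refine htd.frequently (hfy.mono ?_)
      rintro m ⟨hm, hrel⟩
      have h2 := hX m hm hrel
      have h3 : (∑ i, (x m i : ℝ)) = w m * ((p : ℝ) * Nat.fib (m / t)
          + q * Nat.fib (m / t + 1)) := by exact_mod_cast h2
      obtain ⟨-, -, -, -, -, h6, -, -, -, -, h11⟩ := hdat m hm
      have hw1 : (1 : ℝ) ≤ w m := by exact_mod_cast h6
      rw [h3, hlin] at h11
      have e1 : (w m : ℝ) * (((p : ℝ) + q * goldenRatio) / √5 * goldenRatio ^ (m / t)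
          + (-((p : ℝ) + q * goldenConj) / √5) * goldenConj ^ (m / t))
          - Γ * w m * goldenRatio ^ (m / t)
          = w m * ((((p : ℝ) + q * goldenRatio) / √5 - Γ) * goldenRatio ^ (m / t)
        + (-((p : ℝ) + q * goldenConj) / √5) * goldenConj ^ (m / t)) := by ring
      rw [e1, abs_mul, abs_of_pos (by linarith)] at h11
      have h12 : goldenRatio ^ (-(ε / t * m)) ≤ 1 := by
        apply Real.rpow_le_one_of_one_le_of_nonpos hφ1.le
        have : 0 ≤ ε / t * (m : ℝ) := by positivity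
        linarith
      have h13 : (w m : ℝ) * |(((p : ℝ) + q * goldenRatio) / √5 - Γ) * goldenRatio ^ (m / t)
        + (-((p : ℝ) + q * goldenConj) / √5) * goldenConj ^ (m / t)| ≤ C₀ := by
        refine h11.trans ?_
        nlinarith
      refine le_trans ?_ h13
      exact le_mul_of_one_le_left (abs_nonneg _) hw1
    have h2 := lead_zero h1
    have h3 : ((p : ℝ) + q * goldenRatio) / √5 = Γ := by linarith
    rw [← h3]
    field_simp
  · refine hfy.mono ?_
    rintro m ⟨hm, hrel⟩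
    obtain ⟨h1, h2, h3, h4, -, h6, -⟩ := hdat m hm
    exact ⟨m / t, N m, w m, x m, h3, h6, h4, h2, h1, hX m hm hrel⟩

end Pool.Agent.J4.H64.FL
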