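import Mathlib

/-!
# Roots of elements of the real quadratic field of discriminant five
-/

set_option autoImplicit false

namespace Pool.Agent.J4.H64.FL

open Real

lemma sqrt5_sq : √5 * √5 = (5 : ℝ) := Real.mul_self_sqrt (by norm_num)

lemma irr5 : Irrational √5 := by
  have : Nat.Prime 5 := by norm_num
  exact_mod_cast this.irrational_sqrt

/-- uniqueness of coordinates -/
lemma coord_zero {a b : ℚ} (h : (a : ℝ) + b * √5 = 0) : a = 0 ∧ b = 0 := by
  by_cases hb : b = 0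
  · subst hb
    simp only [Rat.cast_zero, zero_mul, add_zero] at h
    exact ⟨by exact_mod_cast h, rfl⟩
  · exfalso
    apply irr5
    refine ⟨-a / b, ?_⟩
    have hb' : (b : ℝ) ≠ 0 := by exact_mod_cast hb
    push_cast
    rw [div_eq_iff hb']
    linarith

lemma coord_unique {a b a' b' : ℚ} (h : (a : ℝ) + b * √5 = a' + b' * √5) : a = a' ∧ b = b' := by
  have h1 : ((a - a' : ℚ) : ℝ) + ((b - b' : ℚ) : ℝ) * √5 = 0 := by
    push_cast
    linarith
  obtain ⟨h2, h3⟩ := coord_zero h1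
  exact ⟨sub_eq_zero.1 h2, sub_eq_zero.1 h3⟩

lemma conj_pow (a b : ℚ) (t : ℕ) : ∃ A B : ℚ, ((a : ℝ) + b * √5) ^ t = A + B * √5 ∧
    ((a : ℝ) - b * √5) ^ t = A - B * √5 := by
  induction t with
  | zero => exact ⟨1, 0, by simp, by simp⟩
  | succ t ih =>
    obtain ⟨A, B, h1, h2⟩ := ih
    refine ⟨A * a + 5 * (B * b), A * b + B * a, ?_, ?_⟩
    · rw [pow_succ, h1]
      push_cast
      linear_combination (B : ℝ) * b * sqrt5_sq
    · rw [pow_succ, h2]
      push_cast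
      linear_combination (B : ℝ) * b * sqrt5_sq

lemma golden_pow (δ : ℕ) : ∃ A B : ℚ, goldenRatio ^ δ = A + B * √5 ∧
    goldenConj ^ δ = A - B * √5 := by
  obtain ⟨A, B, h1, h2⟩ := conj_pow (1 / 2) (1 / 2) δ
  refine ⟨A, B, ?_, ?_⟩
  · rw [← h1, goldenRatio]
    push_cast
    congr 1
    ring
  · rw [← h2, goldenConj]
    push_cast
    congr 1
    ring

/-- conjugation of `√5 * ξ ^ t = u * φ ^ δ` -/
lemma conj_eq_fib {a b u : ℚ} {t δ : ℕ} (h : √5 * ((a : ℝ) + b * √5) ^ t = u * goldenRatio ^ δ) :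
    -(√5 * ((a : ℝ) - b * √5) ^ t) = u * goldenConj ^ δ := by
  obtain ⟨A, B, h1, h2⟩ := conj_pow a b t
  obtain ⟨A', B', h3, h4⟩ := golden_pow δ
  rw [h1, h3] at h
  have h5 : ((5 * B : ℚ) : ℝ) + ((A : ℚ) : ℝ) * √5 = ((u * A' : ℚ) : ℝ) + ((u * B' : ℚ) : ℝ) * √5 := by
    push_cast
    linear_combination h - (B : ℝ) * sqrt5_sq
  obtain ⟨h6, h7⟩ := coord_unique h5
  rw [h2, h4]
  have h6' : (5 : ℝ) * B = u * A' := by exact_mod_cast h6
  have h7' : (A : ℝ) = u * B' := by exact_mod_cast h7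
  linear_combination h6' - √5 * h7' + (B : ℝ) * sqrt5_sq

/-- conjugation of `ξ ^ t = u * φ ^ δ` -/
lemma conj_eq_luc {a b u : ℚ} {t δ : ℕ} (h : ((a : ℝ) + b * √5) ^ t = u * goldenRatio ^ δ) :
    ((a : ℝ) - b * √5) ^ t = u * goldenConj ^ δ := by
  obtain ⟨A, B, h1, h2⟩ := conj_pow a b t
  obtain ⟨A', B', h3, h4⟩ := golden_pow δ
  rw [h1, h3] at h
  have h5 : ((A : ℚ) : ℝ) + ((B : ℚ) : ℝ) * √5 = ((u * A' : ℚ) : ℝ) + ((u * B' : ℚ) : ℝ) * √5 := by
    push_cast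
    linear_combination h
  obtain ⟨h6, h7⟩ := coord_unique h5
  rw [h2, h4]
  have h6' : (A : ℝ) = u * A' := by exact_mod_cast h6
  have h7' : (B : ℝ) = u * B' := by exact_mod_cast h7
  linear_combination h6' - √5 * h7'

lemma isIntegral_golden : IsIntegral ℤ goldenRatio := by
  refine ⟨Polynomial.X ^ 2 - Polynomial.X - 1, by monicity!, ?_⟩
  simp only [Polynomial.eval₂_sub, Polynomial.eval₂_pow, Polynomial.eval₂_X, Polynomial.eval₂_one]
  have := goldenRatio_sq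
  linarith

lemma isIntegral_conj : IsIntegral ℤ goldenConj := by
  refine ⟨Polynomial.X ^ 2 - Polynomial.X - 1, by monicity!, ?_⟩
  simp only [Polynomial.eval₂_sub, Polynomial.eval₂_pow, Polynomial.eval₂_X, Polynomial.eval₂_one]
  have := goldenConj_sq
  linarith

lemma phi_psi (n : ℕ) : goldenRatio ^ n * goldenConj ^ n = (-1) ^ n := by
  rw [← mul_pow, goldenRatio_mul_goldenConj]

theorem ratio_lemma {a b : ℚ} {t δ : ℕ} (ht : 1 ≤ t) (hδ : δ < t) {e : ℝ} (he : e = 1 ∨ e = -1)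
    (hne : (a : ℝ) - b * √5 ≠ 0)
    (h : ((a : ℝ) + b * √5) ^ t = e * goldenRatio ^ (2 * δ) * ((a : ℝ) - b * √5) ^ t) :
    δ = 0 ∧ ((e = 1 ∧ b = 0) ∨ (e = (-1) ^ t ∧ a = 0)) := by
  have htn : t ≠ 0 := by omega
  have hφ0 := goldenRatio_pos
  have hφ1 := one_lt_goldenRatio
  have he0 : e ≠ 0 := by rcases he with h | h <;> rw [h] <;> norm_num
  have he1 : |e| = 1 := by rcases he with h | h <;> rw [h] <;> norm_num
  have heI : IsIntegral ℤ e := by
    rcases he with h | h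
    · rw [h]; exact isIntegral_one
    · rw [h]; exact isIntegral_one.neg
  have hee : e * e = 1 := by rcases he with h | h <;> rw [h] <;> norm_num
  have hne2 : (a : ℝ) + b * √5 ≠ 0 := by
    intro h0
    rw [h0, zero_pow htn] at h
    have h1 : ((a : ℝ) - b * √5) ^ t ≠ 0 := pow_ne_zero _ hne
    have h2 : goldenRatio ^ (2 * δ) ≠ 0 := pow_ne_zero _ hφ0.ne'
    exact mul_ne_zero (mul_ne_zero he0 h2) h1 h.symm
  set z : ℝ := ((a : ℝ) + b * √5) / ((a : ℝ) - b * √5) with hz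
  have hz0 : z ≠ 0 := div_ne_zero hne2 hne
  have hzt : z ^ t = e * goldenRatio ^ (2 * δ) := by
    rw [hz, div_pow, h]
    exact mul_div_cancel_right₀ _ (pow_ne_zero _ hne)
  have hzabs : |z| ^ t = goldenRatio ^ (2 * δ) := by
    rw [← abs_pow, hzt, abs_mul, he1, one_mul, abs_of_pos (pow_pos hφ0 _)]
  have hg0 : 0 < |z| := abs_pos.2 hz0
  have hδ0 : δ = 0 := by
    by_contra hδ0
    have hδ1 : 1 ≤ δ := by omega
    have hI1 : IsIntegral ℤ z := by
      apply IsIntegral.of_pow (n := t) (by omega)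
      rw [hzt]
      exact heI.mul (isIntegral_golden.pow _)
    have hI2 : IsIntegral ℤ z⁻¹ := by
      apply IsIntegral.of_pow (n := t) (by omega)
      have e1 : z⁻¹ ^ t = e * goldenConj ^ (2 * δ) := by
        rw [inv_pow, hzt]
        have h1 := phi_psi (2 * δ)
        rw [pow_mul (-1 : ℝ), neg_one_sq, one_pow] at h1
        rw [inv_eq_iff_eq_inv, eq_comm, inv_eq_iff_eq_inv]
        apply eq_inv_of_mul_eq_one_left
        calc e * goldenConj ^ (2 * δ) * (e * goldenRatio ^ (2 * δ))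
            = (e * e) * (goldenRatio ^ (2 * δ) * goldenConj ^ (2 * δ)) := by ring
          _ = 1 := by rw [hee, h1, one_mul]
      rw [e1]
      exact heI.mul (isIntegral_conj.pow _)
    have hrat : z + z⁻¹ = (((2 * a ^ 2 + 10 * b ^ 2) / (a ^ 2 - 5 * b ^ 2) : ℚ) : ℝ) := by
      have h2 : ((a : ℝ) - b * √5) * ((a : ℝ) + b * √5) = (a : ℝ) ^ 2 - 5 * b ^ 2 := by
        linear_combination -(b : ℝ) ^ 2 * sqrt5_sq
      have h3 : (a : ℝ) ^ 2 - 5 * b ^ 2 ≠ 0 := by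
        rw [← h2]
        exact mul_ne_zero hne hne2
      rw [hz, inv_div, div_add_div _ _ hne hne2, h2]
      push_cast
      congr 1
      linear_combination 2 * (b : ℝ) ^ 2 * sqrt5_sq
    have hint : IsIntegral ℤ (((2 * a ^ 2 + 10 * b ^ 2) / (a ^ 2 - 5 * b ^ 2) : ℚ) : ℝ) := by
      rw [← hrat]
      exact hI1.add hI2
    have hint2 : IsIntegral ℤ ((2 * a ^ 2 + 10 * b ^ 2) / (a ^ 2 - 5 * b ^ 2) : ℚ) := by
      rw [← eq_ratCast (algebraMap ℚ ℝ)] at hint
      exact (isIntegral_algebraMap_iff (algebraMap ℚ ℝ).injective).1 hint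
    obtain ⟨m, hm⟩ := IsIntegrallyClosed.isIntegral_iff.1 hint2
    have hm' : z + z⁻¹ = (m : ℝ) := by
      rw [hrat, ← hm]
      simp
    have hm2 : ((|m| : ℤ) : ℝ) = |z| + |z|⁻¹ := by
      push_cast
      rw [← hm']
      rcases lt_or_gt_of_ne hz0 with h1 | h1
      · have h2 : z⁻¹ < 0 := inv_lt_zero.2 h1
        rw [abs_of_neg h1, abs_of_neg (by linarith), inv_neg]
        ring
      · have h2 : 0 < z⁻¹ := inv_pos.2 h1
        rw [abs_of_pos h1, abs_of_pos (by linarith)]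
    have hg1 : 1 < |z| := by
      by_contra hc
      rw [not_lt] at hc
      have h1 : |z| ^ t ≤ 1 := pow_le_one₀ hg0.le hc
      rw [hzabs] at h1
      have h2 : 1 < goldenRatio ^ (2 * δ) := one_lt_pow₀ hφ1 (by omega)
      linarith
    have hg2 : |z| < goldenRatio ^ 2 := by
      by_contra hc
      rw [not_lt] at hc
      have h1 : (goldenRatio ^ 2) ^ t ≤ |z| ^ t := pow_le_pow_left₀ (by positivity) hc t
      rw [hzabs, ← pow_mul] at h1
      have h2 : goldenRatio ^ (2 * δ) < goldenRatio ^ (2 * t) :=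
        pow_lt_pow_right₀ hφ1 (by omega)
      linarith
    generalize |z| = g at hm2 hg0 hg1 hg2
    have hlow : (2 : ℝ) < g + g⁻¹ := by
      have h1 : g + g⁻¹ - 2 = (g - 1) ^ 2 / g := by
        field_simp
        ring
      have h2 : 0 < (g - 1) ^ 2 / g := div_pos (pow_pos (by linarith) 2) hg0
      linarith
    have hhigh : g + g⁻¹ < 3 := by
      have h1 : goldenRatio ^ 2 = goldenRatio + 1 := goldenRatio_sq
      have h2 : g * g⁻¹ = 1 := mul_inv_cancel₀ hg0.ne'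
      have h3 : g ^ 2 + 1 < 3 * g := by
        nlinarith
      have h4 : g + g⁻¹ = (g ^ 2 + 1) / g := by
        field_simp
      rw [h4, div_lt_iff₀ hg0]
      exact h3
    rw [← hm2] at hlow hhigh
    have h5 : (2 : ℤ) < |m| := by exact_mod_cast hlow
    have h6 : |m| < (3 : ℤ) := by exact_mod_cast hhigh
    omega
  refine ⟨hδ0, ?_⟩
  rw [hδ0, mul_zero, pow_zero] at hzabs
  have hz1 : |z| = 1 := (pow_eq_one_iff_of_nonneg hg0.le htn).1 hzabs
  rw [hδ0, mul_zero, pow_zero, mul_one] at hzt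
  rcases eq_or_eq_neg_of_abs_eq hz1 with h1 | h1
  · left
    rw [h1, one_pow] at hzt
    refine ⟨hzt.symm, ?_⟩
    rw [hz, div_eq_iff hne] at h1
    have h2 : ((0 : ℚ) : ℝ) + ((2 * b : ℚ) : ℝ) * √5 = 0 := by
      push_cast
      linarith
    have := (coord_zero h2).2
    linarith
  · right
    rw [h1] at hzt
    refine ⟨hzt.symm, ?_⟩
    rw [hz, div_eq_iff hne] at h1
    have h2 : ((2 * a : ℚ) : ℝ) + ((0 : ℚ) : ℝ) * √5 = 0 := by
      push_cast
      linarith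
    have := (coord_zero h2).1
    linarith

/-- the Fibonacci case -/
theorem fib_case {t δ u : ℕ} {p q : ℚ} (ht : 1 ≤ t) (hδ : δ < t) (hu : 0 < u)
    (h : √5 * (t * ((u : ℝ) * (√5)⁻¹) ^ (1 / (t : ℝ)) * goldenRatio ^ ((δ : ℝ) / t))
        = p + q * goldenRatio) :
    δ = 0 ∧ Odd t ∧ ∃ r : ℚ, (u : ℚ) = 5 ^ ((t + 1) / 2) * r ^ t := by
  have ht0 : (0 : ℝ) < t := by exact_mod_cast ht
  have htq : (t : ℚ) ≠ 0 := by exact_mod_cast (by omega : t ≠ 0)
  have htn : t ≠ 0 := by omega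
  have hs0 : (0 : ℝ) < √5 := Real.sqrt_pos.2 (by norm_num)
  have hu0 : (0 : ℝ) < u := by exact_mod_cast hu
  have hφ0 := goldenRatio_pos
  set ξ : ℝ := ((u : ℝ) * (√5)⁻¹) ^ (1 / (t : ℝ)) * goldenRatio ^ ((δ : ℝ) / t) with hξ
  have hξt : ξ ^ t = u * (√5)⁻¹ * goldenRatio ^ δ := by
    rw [hξ, mul_pow, one_div, Real.rpow_inv_natCast_pow (by positivity) htn,
        ← Real.rpow_natCast (goldenRatio ^ ((δ : ℝ) / t)) t, ← Real.rpow_mul hφ0.le,
        div_mul_cancel₀ _ ht0.ne', Real.rpow_natCast]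
  have hξe : ξ = ((q / (2 * t) : ℚ) : ℝ) + ((((2 * p + q) / (10 * t)) : ℚ) : ℝ) * √5 := by
    have h1 : √5 * (t * ξ) = p + q * ((1 + √5) / 2) := by
      rw [hξ, ← h]
      ring
    have h2 : ξ = (p + q * ((1 + √5) / 2)) / (√5 * t) := by
      rw [← h1]
      field_simp
    rw [h2, div_eq_iff (mul_pos hs0 ht0).ne']
    push_cast
    field_simp
    linear_combination (-(2 : ℝ) * p - q) * sqrt5_sq * 2
  have h1 : √5 * (((q / (2 * t) : ℚ) : ℝ) + ((((2 * p + q) / (10 * t)) : ℚ) : ℝ) * √5) ^ t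
      = ((u : ℚ) : ℝ) * goldenRatio ^ δ := by
    rw [← hξe, hξt]
    push_cast
    field_simp
  have h2 := conj_eq_fib h1
  rw [Rat.cast_natCast] at h1 h2
  set a : ℚ := q / (2 * t) with ha
  set b : ℚ := (2 * p + q) / (10 * t) with hb
  have hne : (a : ℝ) - b * √5 ≠ 0 := by
    intro h0
    rw [h0, zero_pow htn, mul_zero, neg_zero] at h2
    have : (u : ℝ) * goldenConj ^ δ ≠ 0 := mul_ne_zero hu0.ne' (pow_ne_zero _ goldenConj_ne_zero)
    exact this h2.symm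
  have hpp := phi_psi δ
  have h3 : ((a : ℝ) + b * √5) ^ t
      = (-(-1) ^ δ) * goldenRatio ^ (2 * δ) * ((a : ℝ) - b * √5) ^ t := by
    have h4 : √5 * (((a : ℝ) + b * √5) ^ t)
        = √5 * ((-(-1) ^ δ) * goldenRatio ^ (2 * δ) * ((a : ℝ) - b * √5) ^ t) := by
      have hsq : ((-1 : ℝ) ^ δ) * (-1) ^ δ = 1 := by
        rw [← mul_pow]; norm_num
      calc √5 * (((a : ℝ) + b * √5) ^ t) = u * goldenRatio ^ δ := h1
        _ = ((-1 : ℝ) ^ δ * (-1) ^ δ) * (u * goldenRatio ^ δ) := by rw [hsq, one_mul]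
        _ = (-1 : ℝ) ^ δ * goldenRatio ^ (2 * δ) * (u * goldenConj ^ δ) := by
            nth_rewrite 2 [← hpp]
            ring
        _ = (-1 : ℝ) ^ δ * goldenRatio ^ (2 * δ) * (-(√5 * ((a : ℝ) - b * √5) ^ t)) := by rw [h2]
        _ = _ := by ring
    exact mul_left_cancel₀ hs0.ne' h4
  have he : (-(-1 : ℝ) ^ δ) = 1 ∨ (-(-1 : ℝ) ^ δ) = -1 := by
    rcases neg_one_pow_eq_or ℝ δ with h | h <;> rw [h] <;> norm_num
  obtain ⟨hδ0, h5⟩ := ratio_lemma ht hδ he hne h3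
  rw [hδ0, pow_zero] at h5
  rcases h5 with ⟨h6, -⟩ | ⟨h6, h7⟩
  · norm_num at h6
  · have hodd : Odd t := by
      rcases Nat.even_or_odd t with h | h
      · rw [h.neg_one_pow] at h6
        norm_num at h6
      · exact h
    refine ⟨hδ0, hodd, b, ?_⟩
    rw [h7, hδ0, pow_zero, mul_one, Rat.cast_zero, zero_add, mul_pow] at h1
    obtain ⟨s, hs⟩ := hodd
    have h8 : (u : ℝ) = 5 ^ (s + 1) * (b : ℝ) ^ t := by
      rw [← h1, hs, pow_succ √5, pow_mul √5, Real.sq_sqrt (by norm_num)]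
      linear_combination (-(b : ℝ) ^ (2 * s + 1) * 5 ^ s) * sqrt5_sq * (-1)
    have h9 : (t + 1) / 2 = s + 1 := by omega
    rw [h9]
    exact_mod_cast h8

/-- the Lucas case -/
theorem luc_case {t δ u : ℕ} {p q : ℚ} (ht : 1 ≤ t) (hδ : δ < t) (hu : 0 < u)
    (h : √5 * (t * ((u : ℝ) * 1) ^ (1 / (t : ℝ)) * goldenRatio ^ ((δ : ℝ) / t))
        = p + q * goldenRatio) :
    δ = 0 ∧ ((2 * p + q = 0 ∧ (u : ℚ) = (q / (2 * t)) ^ t) ∨
      (Even t ∧ q = 0 ∧ (u : ℚ) = 5 ^ (t / 2) * (p / (5 * t)) ^ t)) := by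
  have ht0 : (0 : ℝ) < t := by exact_mod_cast ht
  have htq : (t : ℚ) ≠ 0 := by exact_mod_cast (by omega : t ≠ 0)
  have htn : t ≠ 0 := by omega
  have hs0 : (0 : ℝ) < √5 := Real.sqrt_pos.2 (by norm_num)
  have hu0 : (0 : ℝ) < u := by exact_mod_cast hu
  have hφ0 := goldenRatio_pos
  set ξ : ℝ := ((u : ℝ) * 1) ^ (1 / (t : ℝ)) * goldenRatio ^ ((δ : ℝ) / t) with hξ
  have hξt : ξ ^ t = u * goldenRatio ^ δ := by
    rw [hξ, mul_pow, one_div, Real.rpow_inv_natCast_pow (by positivity) htn, mul_one,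
        ← Real.rpow_natCast (goldenRatio ^ ((δ : ℝ) / t)) t, ← Real.rpow_mul hφ0.le,
        div_mul_cancel₀ _ ht0.ne', Real.rpow_natCast]
  have hξe : ξ = ((q / (2 * t) : ℚ) : ℝ) + ((((2 * p + q) / (10 * t)) : ℚ) : ℝ) * √5 := by
    have h1 : √5 * (t * ξ) = p + q * ((1 + √5) / 2) := by
      rw [hξ, ← h]
      ring
    have h2 : ξ = (p + q * ((1 + √5) / 2)) / (√5 * t) := by
      rw [← h1]
      field_simp
    rw [h2, div_eq_iff (mul_pos hs0 ht0).ne']
    push_cast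
    field_simp
    linear_combination (-(2 : ℝ) * p - q) * sqrt5_sq * 2
  have h1 : (((q / (2 * t) : ℚ) : ℝ) + ((((2 * p + q) / (10 * t)) : ℚ) : ℝ) * √5) ^ t
      = ((u : ℚ) : ℝ) * goldenRatio ^ δ := by
    rw [← hξe, hξt]
    push_cast
    rfl
  have h2 := conj_eq_luc h1
  rw [Rat.cast_natCast] at h1 h2
  set a : ℚ := q / (2 * t) with ha
  set b : ℚ := (2 * p + q) / (10 * t) with hb
  have hne : (a : ℝ) - b * √5 ≠ 0 := by
    intro h0
    rw [h0, zero_pow htn] at h2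
    have : (u : ℝ) * goldenConj ^ δ ≠ 0 := mul_ne_zero hu0.ne' (pow_ne_zero _ goldenConj_ne_zero)
    exact this h2.symm
  have hpp := phi_psi δ
  have h3 : ((a : ℝ) + b * √5) ^ t
      = ((-1) ^ δ) * goldenRatio ^ (2 * δ) * ((a : ℝ) - b * √5) ^ t := by
    have hsq : ((-1 : ℝ) ^ δ) * (-1) ^ δ = 1 := by
      rw [← mul_pow]; norm_num
    calc ((a : ℝ) + b * √5) ^ t = u * goldenRatio ^ δ := h1
      _ = ((-1 : ℝ) ^ δ * (-1) ^ δ) * (u * goldenRatio ^ δ) := by rw [hsq, one_mul]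
      _ = (-1 : ℝ) ^ δ * goldenRatio ^ (2 * δ) * (u * goldenConj ^ δ) := by
          nth_rewrite 2 [← hpp]
          ring
      _ = _ := by rw [h2]
  obtain ⟨hδ0, h5⟩ := ratio_lemma ht hδ (neg_one_pow_eq_or ℝ δ) hne h3
  refine ⟨hδ0, ?_⟩
  rw [hδ0, pow_zero] at h5
  rcases h5 with ⟨-, h6⟩ | ⟨h6, h7⟩
  · left
    have h8 : 2 * p + q = 0 := by
      rw [hb, div_eq_zero_iff] at h6
      rcases h6 with h | h
      · exact h
      · exfalso
        apply htq
        linarith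
    refine ⟨h8, ?_⟩
    rw [h6, hδ0, pow_zero, mul_one, Rat.cast_zero, zero_mul, add_zero] at h1
    exact_mod_cast h1.symm
  · right
    have heven : Even t := by
      rcases Nat.even_or_odd t with h | h
      · exact h
      · rw [h.neg_one_pow] at h6
        norm_num at h6
    have hq0 : q = 0 := by
      rw [ha, div_eq_zero_iff] at h7
      rcases h7 with h | h
      · exact h
      · exfalso
        apply htq
        linarith
    refine ⟨heven, hq0, ?_⟩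
    rw [h7, hδ0, pow_zero, mul_one, Rat.cast_zero, zero_add, mul_pow] at h1
    have hb2 : b = p / (5 * t) := by
      rw [hb, hq0]
      field_simp
      ring
    obtain ⟨s, hs⟩ := heven
    have h8 : (u : ℝ) = 5 ^ s * (b : ℝ) ^ t := by
      rw [← h1, hs, ← two_mul, pow_mul √5, Real.sq_sqrt (by norm_num)]
      ring
    have h9 : t / 2 = s := by omega
    rw [h9, ← hb2]
    exact_mod_cast h8

end Pool.Agent.J4.H64.FL
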