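import Mathlib
import Pool.Agent.R333.SubR
import Pool.Agent.J4.H64.FL.Basic

/-!
# Ridout's theorem for the number one: differences of integers with large smooth divisors
-/

set_option autoImplicit false

namespace Pool.Agent.J4.H64.FL

open Finset Filter Topology
open Pool.Agent.R333.SubR

/-- the data of an exceptionally small difference -/
def BadR (b : ℕ) (ε : ℝ) (m x₁ x₂ D₁ D₂ k : ℕ) : Prop :=
  0 < x₁ ∧ 0 < x₂ ∧ x₁ ≠ x₂ ∧ D₁ ∣ x₁ ∧ D₂ ∣ x₂ ∧ D₁ ∣ b ^ k ∧ D₂ ∣ b ^ k ∧ x₂ ≤ 2 * x₁ ∧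
    b ^ m ≤ x₁ ∧ x₁ < b ^ (m + 1) ∧ |(x₁ : ℝ) - x₂| * (x₁ : ℝ) ^ (1 + ε) < D₁ * D₂

lemma BadR.prod_le {b : ℕ} {ε : ℝ} {m x₁ x₂ D₁ D₂ k : ℕ} (h : BadR b ε m x₁ x₂ D₁ D₂ k) :
    ((D₁ : ℝ) * D₂) ≤ 2 * (x₁ : ℝ) ^ 2 := by
  obtain ⟨h1, h2, -, h4, h5, -, -, h8, -⟩ := h
  have a1 : (D₁ : ℝ) ≤ x₁ := by exact_mod_cast Nat.le_of_dvd h1 h4
  have a2 : (D₂ : ℝ) ≤ 2 * x₁ := by
    have : D₂ ≤ 2 * x₁ := (Nat.le_of_dvd h2 h5).trans h8
    exact_mod_cast this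
  have a3 : (0 : ℝ) ≤ D₂ := Nat.cast_nonneg _
  have a4 : (0 : ℝ) ≤ x₁ := Nat.cast_nonneg _
  nlinarith

lemma not_freq_bad (b : ℕ) (hb : 2 ≤ b) (ε : ℝ) (hε : 0 < ε) :
    ¬ ∃ᶠ m in atTop, ∃ x₁ x₂ D₁ D₂ k : ℕ, BadR b ε m x₁ x₂ D₁ D₂ k := by
  intro hfr
  have hb0 : (0 : ℝ) < b := by exact_mod_cast (by omega : 0 < b)
  have hb1 : (1 : ℝ) < b := by exact_mod_cast (by omega : 1 < b)
  have hLb : 0 < Real.log b := Real.log_pos hb1
  set η : ℝ := ε / 2 with hη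
  have hη0 : 0 < η := by positivity
  set I : ℕ := ⌈5 / η⌉₊ with hI
  -- pigeonhole on the size of the divisors
  have hfr2 : ∃ᶠ m in atTop, ∃ i : Fin (I + 1), 1 ≤ m ∧ ∃ x₁ x₂ D₁ D₂ k : ℕ,
      BadR b ε m x₁ x₂ D₁ D₂ k ∧ (i : ℝ) * η * (m * Real.log b) ≤ Real.log (D₁ * D₂) ∧
        Real.log (D₁ * D₂) ≤ ((i : ℝ) + 1) * η * (m * Real.log b) := by
    refine (hfr.and_eventually (eventually_ge_atTop 1)).mono ?_
    rintro m ⟨⟨x₁, x₂, D₁, D₂, k, hbad⟩, hm⟩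
    have hbad' := hbad
    obtain ⟨h1, h2, h3, h4, h5, h6, h7, h8, h9, h10, h11⟩ := hbad
    have hD₁ : 1 ≤ D₁ := Nat.pos_of_dvd_of_pos h4 h1
    have hD₂ : 1 ≤ D₂ := Nat.pos_of_dvd_of_pos h5 h2
    have hD : (1 : ℝ) ≤ (D₁ : ℝ) * D₂ := by
      have a1 : (1 : ℝ) ≤ D₁ := by exact_mod_cast hD₁
      have a2 : (1 : ℝ) ≤ D₂ := by exact_mod_cast hD₂
      nlinarith
    have hL0 : 0 ≤ Real.log ((D₁ : ℝ) * D₂) := Real.log_nonneg hD
    have hm0 : (0 : ℝ) < m * Real.log b := mul_pos (by exact_mod_cast hm) hLb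
    have hL1 : Real.log ((D₁ : ℝ) * D₂) ≤ 5 * (m * Real.log b) := by
      have a1 : (D₁ : ℝ) * D₂ ≤ (b : ℝ) ^ (5 * m) := by
        have a2 : (x₁ : ℝ) ≤ (b : ℝ) ^ (m + 1) := by exact_mod_cast h10.le
        have a3 : (0 : ℝ) ≤ x₁ := Nat.cast_nonneg _
        calc (D₁ : ℝ) * D₂ ≤ 2 * (x₁ : ℝ) ^ 2 := hbad'.prod_le
          _ ≤ b * ((b : ℝ) ^ (m + 1)) ^ 2 := by
              apply mul_le_mul (by exact_mod_cast hb) (pow_le_pow_left₀ a3 a2 2) (by positivity)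
                hb0.le
          _ = (b : ℝ) ^ (2 * m + 3) := by ring
          _ ≤ (b : ℝ) ^ (5 * m) := pow_le_pow_right₀ hb1.le (by omega)
      have a2 := Real.log_le_log (by linarith) a1
      rw [Real.log_pow] at a2
      push_cast at a2
      linarith
    refine ⟨⟨⌊Real.log ((D₁ : ℝ) * D₂) / (η * (m * Real.log b))⌋₊, ?_⟩, hm, x₁, x₂, D₁, D₂, k,
      hbad', ?_, ?_⟩
    · rw [Nat.lt_succ_iff, hI]
      refine (Nat.floor_le_floor ?_).trans (Nat.floor_le_ceil _)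
      rw [div_le_div_iff₀ (mul_pos hη0 hm0) hη0]
      nlinarith
    · have a1 := Nat.floor_le (a := Real.log ((D₁ : ℝ) * D₂) / (η * (m * Real.log b)))
        (div_nonneg hL0 (mul_pos hη0 hm0).le)
      rw [le_div_iff₀ (mul_pos hη0 hm0)] at a1
      simp only
      linarith
    · have a1 := (Nat.lt_floor_add_one (Real.log ((D₁ : ℝ) * D₂) / (η * (m * Real.log b)))).le
      rw [div_le_iff₀ (mul_pos hη0 hm0)] at a1
      simp only
      linarith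
  obtain ⟨i, hfi⟩ := freq_fin hfr2
  clear hfr hfr2
  set P : ℕ → Prop := fun m => 1 ≤ m ∧ ∃ x₁ x₂ D₁ D₂ k : ℕ,
      BadR b ε m x₁ x₂ D₁ D₂ k ∧ (i : ℝ) * η * (m * Real.log b) ≤ Real.log (D₁ * D₂) ∧
        Real.log (D₁ * D₂) ≤ ((i : ℝ) + 1) * η * (m * Real.log b) with hP
  have hex : ∀ m, P m → ∃ x₁ x₂ D₁ D₂ k : ℕ,
      BadR b ε m x₁ x₂ D₁ D₂ k ∧ (i : ℝ) * η * (m * Real.log b) ≤ Real.log (D₁ * D₂) ∧
        Real.log (D₁ * D₂) ≤ ((i : ℝ) + 1) * η * (m * Real.log b) := fun m h => h.2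
  choose! X₁ X₂ D₁ D₂ kk hdat using hex
  have hpos : ∀ m, P m → 1 ≤ D₁ m ∧ 1 ≤ D₂ m := fun m h =>
    ⟨Nat.pos_of_dvd_of_pos (hdat m h).1.2.2.2.1 (hdat m h).1.1,
      Nat.pos_of_dvd_of_pos (hdat m h).1.2.2.2.2.1 (hdat m h).1.2.1⟩
  have hb2 : (b : ℕ) ≤ 2 ^ b := Nat.lt_two_pow_self.le
  obtain ⟨y, hy, hfy⟩ := sub_real (n := 2) (by norm_num) b hb (Matrix.of ![![1, 0], ![-1, 1]])
    (by
      intro i j
      have h1 : IsAlgebraic ℚ (1 : ℝ) := isAlgebraic_one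
      have h0 : IsAlgebraic ℚ (0 : ℝ) := isAlgebraic_zero
      fin_cases i <;> fin_cases j <;> simp [h0, h1, h1.neg])
    (by
      intro i j hij
      fin_cases i <;> fin_cases j <;> simp at hij ⊢)
    (by intro i; fin_cases i <;> simp)
    P hfi
    (fun m => ![(X₁ m : ℤ), (X₂ m : ℤ)])
    (by
      intro m hm h
      have h2 := congrFun h 0
      have h3 := (hdat m hm).1.1
      simp at h2
      omega)
    (fun m => ![D₁ m, D₂ m]) (3 * b)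
    (by
      intro m l hm
      obtain ⟨h1, h2, h3, h4, h5, h6, h7, h8, h9, h10, h11⟩ := (hdat m hm).1
      have hm1 : 1 ≤ m := hm.1
      have a1 : b ^ (m + 1) ≤ 2 ^ (b * (m + 1)) := by
        rw [pow_mul]
        exact Nat.pow_le_pow_left hb2 _
      have a2 : b * (m + 1) + 1 ≤ 3 * b * m := by nlinarith
      have a3 : 2 * 2 ^ (b * (m + 1)) ≤ 2 ^ (3 * b * m) := by
        rw [← pow_succ']
        exact Nat.pow_le_pow_right (by norm_num) a2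
      fin_cases l
      · apply dvd_pow_of_lt (by omega) h6
        have := Nat.le_of_dvd h1 h4
        omega
      · apply dvd_pow_of_lt (by omega) h7
        have := Nat.le_of_dvd h2 h5
        omega)
    (by
      intro m l hm
      obtain ⟨h1, h2, h3, h4, h5, h6, h7, h8, h9, h10, h11⟩ := (hdat m hm).1
      fin_cases l
      · simpa using Int.natCast_dvd_natCast.2 h4
      · simpa using Int.natCast_dvd_natCast.2 h5)
    ![1, ((i : ℝ) + 1) * η - 1 - ε] b hb0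
    (by
      intro m l hm
      obtain ⟨h1, h2, h3, h4, h5, h6, h7, h8, h9, h10, h11⟩ := (hdat m hm).1
      obtain ⟨-, h12, h13⟩ := hdat m hm
      obtain ⟨hD1, hD2⟩ := hpos m hm
      have hDp : (0 : ℝ) < (D₁ m : ℝ) * D₂ m := by
        have a1 : (1 : ℝ) ≤ D₁ m := by exact_mod_cast hD1
        have a2 : (1 : ℝ) ≤ D₂ m := by exact_mod_cast hD2
        nlinarith
      fin_cases l
      · simp only [Fin.zero_eta, Fin.isValue, Matrix.of_apply, Fin.sum_univ_two,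
          Matrix.cons_val_zero, Matrix.cons_val_one]
        have this : (X₁ m : ℝ) ≤ (b : ℝ) ^ (m + 1) := by exact_mod_cast h10.le
        have e1 : (b : ℝ) ^ (1 * (m : ℝ)) = (b : ℝ) ^ m := by
          rw [one_mul, Real.rpow_natCast]
        rw [e1]
        push_cast
        rw [one_mul, zero_mul, add_zero, abs_of_nonneg (Nat.cast_nonneg _)]
        calc (X₁ m : ℝ) ≤ (b : ℝ) ^ (m + 1) := this
          _ = b * (b : ℝ) ^ m := by ring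
      · simp only [Fin.mk_one, Fin.isValue, Matrix.of_apply, Fin.sum_univ_two,
          Matrix.cons_val_zero, Matrix.cons_val_one]
        push_cast
        have e1 : -1 * (X₁ m : ℝ) + 1 * (X₂ m : ℝ) = -((X₁ m : ℝ) - X₂ m) := by ring
        rw [e1, abs_neg]
        have hx1 : (0 : ℝ) < X₁ m := by exact_mod_cast h1
        have hxm : (b : ℝ) ^ m ≤ X₁ m := by exact_mod_cast h9
        have hxp : (0 : ℝ) < (X₁ m : ℝ) ^ (1 + ε) := Real.rpow_pos_of_pos hx1 _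
        have a1 : |(X₁ m : ℝ) - X₂ m| ≤ ((D₁ m : ℝ) * D₂ m) / (X₁ m : ℝ) ^ (1 + ε) := by
          rw [le_div_iff₀ hxp]
          exact h11.le
        have a2 : ((D₁ m : ℝ) * D₂ m) ≤ (b : ℝ) ^ ((((i : ℝ) + 1) * η) * m) := by
          rw [← Real.exp_log hDp, Real.rpow_def_of_pos hb0]
          apply Real.exp_le_exp.2
          calc Real.log ((D₁ m : ℝ) * D₂ m) ≤ ((i : ℝ) + 1) * η * (m * Real.log b) := h13
            _ = Real.log b * ((((i : ℝ) + 1) * η) * m) := by ring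
        have a3 : (b : ℝ) ^ ((1 + ε) * m) ≤ (X₁ m : ℝ) ^ (1 + ε) := by
          rw [mul_comm, Real.rpow_mul hb0.le, Real.rpow_natCast]
          exact Real.rpow_le_rpow (by positivity) hxm (by positivity)
        have a4 : (0 : ℝ) < (b : ℝ) ^ ((1 + ε) * (m : ℝ)) := Real.rpow_pos_of_pos hb0 _
        calc |(X₁ m : ℝ) - X₂ m| ≤ ((D₁ m : ℝ) * D₂ m) / (X₁ m : ℝ) ^ (1 + ε) := a1
          _ ≤ (b : ℝ) ^ ((((i : ℝ) + 1) * η) * m) / (b : ℝ) ^ ((1 + ε) * (m : ℝ)) :=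
              div_le_div₀ (Real.rpow_nonneg hb0.le _) a2 a4 a3
          _ = (b : ℝ) ^ ((((i : ℝ) + 1) * η - 1 - ε) * (m : ℝ)) := by
              rw [← Real.rpow_sub hb0]
              congr 1
              ring
          _ ≤ b * (b : ℝ) ^ ((((i : ℝ) + 1) * η - 1 - ε) * (m : ℝ)) :=
              le_mul_of_one_le_left (Real.rpow_nonneg hb0.le _) hb1.le)
    (ε / 2) (by positivity)
    (by
      intro m hm
      obtain ⟨-, h12, h13⟩ := hdat m hm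
      obtain ⟨hD1, hD2⟩ := hpos m hm
      have a1 : (D₁ m : ℝ) ≠ 0 := by
        have : (1 : ℝ) ≤ D₁ m := by exact_mod_cast hD1
        linarith
      have a2 : (D₂ m : ℝ) ≠ 0 := by
        have : (1 : ℝ) ≤ D₂ m := by exact_mod_cast hD2
        linarith
      simp only [Fin.sum_univ_two, Matrix.cons_val_zero, Matrix.cons_val_one]
      rw [← Real.log_mul a1 a2]
      refine le_trans (le_of_eq ?_) h12
      rw [hη]
      ring)
  -- the ratio is constant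
  simp only [Fin.sum_univ_two, Matrix.cons_val_zero, Matrix.cons_val_one] at hfy
  have hy1 : y 1 ≠ 0 := by
    intro h0
    obtain ⟨m, hm, hrel⟩ := hfy.exists
    rw [h0, zero_mul, add_zero] at hrel
    have h1 := (hdat m hm).1.1
    rcases mul_eq_zero.1 hrel with h2 | h2
    · apply hy
      funext l
      fin_cases l
      · exact h2
      · exact h0
    · omega
  set ρ : ℝ := -(y 0 : ℝ) / y 1 with hρ
  have hy1' : (y 1 : ℝ) ≠ 0 := by exact_mod_cast hy1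
  have hrat : ∀ m, P m → y 0 * (X₁ m : ℤ) + y 1 * (X₂ m : ℤ) = 0 → (X₂ m : ℝ) = ρ * X₁ m := by
    intro m _ h
    have h2 : (y 0 : ℝ) * X₁ m + y 1 * X₂ m = 0 := by exact_mod_cast h
    rw [hρ]
    field_simp
    linarith
  have hρ1 : ρ ≠ 1 := by
    intro h0
    obtain ⟨m, hm, hrel⟩ := hfy.exists
    have h1 := hrat m hm hrel
    rw [h0, one_mul] at h1
    exact (hdat m hm).1.2.2.1 (by exact_mod_cast h1.symm)
  have hρ' : 0 < |1 - ρ| := abs_pos.2 (sub_ne_zero.2 (Ne.symm hρ1))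
  have htend : Tendsto (fun m : ℕ => |1 - ρ| * ((b : ℝ) ^ ε) ^ m) atTop atTop := by
    apply Tendsto.const_mul_atTop hρ'
    exact tendsto_pow_atTop_atTop_of_one_lt (Real.one_lt_rpow hb1 hε)
  obtain ⟨m, ⟨hm, hrel⟩, hbig⟩ := (hfy.and_eventually (htend.eventually_gt_atTop 2)).exists
  obtain ⟨h1, h2, h3, h4, h5, h6, h7, h8, h9, h10, h11⟩ := (hdat m hm).1
  have hx1 : (0 : ℝ) < X₁ m := by exact_mod_cast h1
  have hxm : (b : ℝ) ^ m ≤ X₁ m := by exact_mod_cast h9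
  have e1 : |(X₁ m : ℝ) - X₂ m| = |1 - ρ| * X₁ m := by
    rw [hrat m hm hrel, show (X₁ m : ℝ) - ρ * X₁ m = (1 - ρ) * X₁ m by ring, abs_mul,
      abs_of_pos hx1]
  have e2 : (X₁ m : ℝ) ^ (1 + ε) = X₁ m * (X₁ m : ℝ) ^ ε := by
    rw [Real.rpow_add hx1, Real.rpow_one]
  have e3 : ((b : ℝ) ^ ε) ^ m ≤ (X₁ m : ℝ) ^ ε := by
    rw [← Real.rpow_natCast, ← Real.rpow_mul hb0.le, mul_comm, Real.rpow_mul hb0.le,
      Real.rpow_natCast]
    exact Real.rpow_le_rpow (by positivity) hxm hε.le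
  have e4 := (hdat m hm).1.prod_le
  rw [e1, e2] at h11
  have e5 : |1 - ρ| * (X₁ m : ℝ) ^ ε * (X₁ m : ℝ) ^ 2 < 2 * (X₁ m : ℝ) ^ 2 := by
    calc |1 - ρ| * (X₁ m : ℝ) ^ ε * (X₁ m : ℝ) ^ 2
        = |1 - ρ| * X₁ m * (X₁ m * (X₁ m : ℝ) ^ ε) := by ring
      _ < D₁ m * D₂ m := h11
      _ ≤ 2 * (X₁ m : ℝ) ^ 2 := e4
  have e6 : |1 - ρ| * (X₁ m : ℝ) ^ ε < 2 := lt_of_mul_lt_mul_right e5 (by positivity)
  have e7 : |1 - ρ| * ((b : ℝ) ^ ε) ^ m ≤ |1 - ρ| * (X₁ m : ℝ) ^ ε :=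
    mul_le_mul_of_nonneg_left e3 hρ'.le
  linarith

/-- **Ridout's theorem for the number one.** -/
theorem ridout_one (b : ℕ) (hb : 2 ≤ b) (ε : ℝ) (hε : 0 < ε) :
    ∃ c : ℝ, 0 < c ∧ ∀ x₁ x₂ D₁ D₂ k : ℕ, 0 < x₁ → 0 < x₂ → x₁ ≠ x₂ → D₁ ∣ x₁ → D₂ ∣ x₂ →
      D₁ ∣ b ^ k → D₂ ∣ b ^ k →
      c * (D₁ * D₂) ≤ |(x₁ : ℝ) - x₂| * (x₁ : ℝ) ^ (1 + ε) := by
  have hb0 : (0 : ℝ) < b := by exact_mod_cast (by omega : 0 < b)
  have hb1 : (1 : ℝ) < b := by exact_mod_cast (by omega : 1 < b)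
  have h1 := not_freq_bad b hb ε hε
  rw [Filter.not_frequently] at h1
  obtain ⟨m₀, hm₀⟩ := Filter.eventually_atTop.1 h1
  set c : ℝ := min (1 / 2) (1 / (2 * ((b : ℝ) ^ m₀) ^ 2)) with hc
  have hc0 : 0 < c := lt_min (by norm_num) (by positivity)
  refine ⟨c, hc0, ?_⟩
  intro x₁ x₂ D₁ D₂ k hx₁ hx₂ hne hD₁ hD₂ hk₁ hk₂
  have hx₁' : (1 : ℝ) ≤ x₁ := by exact_mod_cast hx₁
  have hx₂' : (1 : ℝ) ≤ x₂ := by exact_mod_cast hx₂
  have hpow : (x₁ : ℝ) ≤ (x₁ : ℝ) ^ (1 + ε) := by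
    calc (x₁ : ℝ) = (x₁ : ℝ) ^ (1 : ℝ) := (Real.rpow_one _).symm
      _ ≤ (x₁ : ℝ) ^ (1 + ε) := Real.rpow_le_rpow_of_exponent_le hx₁' (by linarith)
  have hd1 : (1 : ℝ) ≤ |(x₁ : ℝ) - x₂| := by
    have h2 : (x₁ : ℤ) - x₂ ≠ 0 := by
      intro h
      exact hne (by exact_mod_cast (sub_eq_zero.1 h))
    have h3 := Int.one_le_abs h2
    exact_mod_cast h3
  have a1 : (D₁ : ℝ) ≤ x₁ := by exact_mod_cast Nat.le_of_dvd hx₁ hD₁
  have a2 : (D₂ : ℝ) ≤ x₂ := by exact_mod_cast Nat.le_of_dvd hx₂ hD₂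
  have a3 : (0 : ℝ) ≤ D₁ := Nat.cast_nonneg _
  have a4 : (0 : ℝ) ≤ D₂ := Nat.cast_nonneg _
  have hDD : (D₁ : ℝ) * D₂ ≤ x₁ * x₂ := mul_le_mul a1 a2 a4 (by linarith)
  rcases lt_or_ge (2 * x₁) x₂ with hlt | hge
  · have h3 : (2 : ℝ) * x₁ < x₂ := by exact_mod_cast hlt
    have h4 : (x₂ : ℝ) / 2 ≤ |(x₁ : ℝ) - x₂| := by
      rw [abs_of_neg (by linarith)]
      linarith
    calc c * (D₁ * D₂) ≤ 1 / 2 * (x₁ * x₂) :=
          mul_le_mul (min_le_left _ _) hDD (by positivity) (by norm_num)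
      _ = x₂ / 2 * x₁ := by ring
      _ ≤ |(x₁ : ℝ) - x₂| * (x₁ : ℝ) ^ (1 + ε) :=
          mul_le_mul h4 hpow (by linarith) (abs_nonneg _)
  · by_cases hm : m₀ ≤ Nat.log b x₁
    · by_contra hcon
      rw [not_le] at hcon
      refine hm₀ _ hm ⟨x₁, x₂, D₁, D₂, k, hx₁, hx₂, hne, hD₁, hD₂, hk₁, hk₂, hge,
        Nat.pow_log_le_self b hx₁.ne', Nat.lt_pow_succ_log_self (by omega) x₁, ?_⟩
      refine hcon.trans_le ?_
      have : c ≤ 1 := (min_le_left _ _).trans (by norm_num)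
      have h5 : (0 : ℝ) ≤ (D₁ : ℝ) * D₂ := by positivity
      nlinarith
    · rw [not_le] at hm
      have h5 : x₁ < b ^ m₀ := by
        have := Nat.lt_pow_succ_log_self (b := b) (by omega) x₁
        refine this.trans_le (Nat.pow_le_pow_right (by omega) hm)
      have h6 : (x₁ : ℝ) ≤ (b : ℝ) ^ m₀ := by exact_mod_cast h5.le
      have h7 : (x₂ : ℝ) ≤ 2 * x₁ := by exact_mod_cast hge
      have h8 : (D₁ : ℝ) * D₂ ≤ 2 * ((b : ℝ) ^ m₀) ^ 2 := by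
        calc (D₁ : ℝ) * D₂ ≤ x₁ * x₂ := hDD
          _ ≤ x₁ * (2 * x₁) := mul_le_mul_of_nonneg_left h7 (by linarith)
          _ = 2 * (x₁ : ℝ) ^ 2 := by ring
          _ ≤ 2 * ((b : ℝ) ^ m₀) ^ 2 := by
              have := pow_le_pow_left₀ (by linarith : (0 : ℝ) ≤ x₁) h6 2
              linarith
      have h9 : c * (D₁ * D₂) ≤ 1 := by
        calc c * (D₁ * D₂) ≤ 1 / (2 * ((b : ℝ) ^ m₀) ^ 2) * (2 * ((b : ℝ) ^ m₀) ^ 2) :=
              mul_le_mul (min_le_right _ _) h8 (by positivity) (by positivity)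
          _ = 1 := by field_simp
      nlinarith

end Pool.Agent.J4.H64.FL
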