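import Mathlib
import Pool.Agent.J4.H64.FL.Rid
import Pool.Agent.J4.H64.FL.Core
import Pool.Agent.J4.H64.FL.Norm

/-!
# Balanced factorizations of Fibonacci and Lucas numbers: assembly
-/

set_option autoImplicit false

namespace Pool.Agent.J4.H64.FL

open Finset Filter Topology Real

/-- a factorization `F n = d_0 ... d_{t-1}` whose factors are nearly in smooth proportion -/
def BadF (b t : ℕ) (F : ℕ → ℕ) (ε : ℝ) (n : ℕ) (d A : Fin t → ℕ) : Prop :=
  ∏ i, d i = F n ∧ (∀ i, 0 < A i) ∧ (∃ K, ∀ i, A i ∣ b ^ K) ∧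
    ∀ i j, |((A i : ℝ) * d i) - (A j : ℝ) * d j| ≤
      ((((∏ i, A i) * F n : ℕ) : ℝ) ^ (1 / (t : ℝ))) ^ (1 / 2 - ε)

theorem reduction {b t : ℕ} (hb : 2 ≤ b) (ht : 2 ≤ t) {F : ℕ → ℕ} {κ s : ℝ} (hκ : 0 < κ)
    (hs : |s| = 1) (hF : ∀ n, (F n : ℝ) = κ * (goldenRatio ^ n + s * goldenConj ^ n)) {ε : ℝ}
    (hε : 0 < ε) (hε1 : ε < 1) (E : ℕ → ℕ → Prop)
    (hE : ∀ n N g, 0 < g → E n (g ^ t * N) → E n N)
    (hfr : ∃ᶠ n in atTop, ∃ (d A : Fin t → ℕ), BadF b t F ε n d A ∧ E n (∏ i, A i)) :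
    ∃ᶠ n in atTop, ∃ (N K : ℕ) (x : Fin t → ℕ), BadC b t F ε n N K x ∧ E n N := by
  have ht0 : (0 : ℝ) < t := by exact_mod_cast (by omega : 0 < t)
  have ht1 : (1 : ℝ) ≤ t := by exact_mod_cast (by omega : 1 ≤ t)
  have htn : t ≠ 0 := by omega
  have hφ0 := goldenRatio_pos
  have hφ1 := one_lt_goldenRatio
  obtain ⟨c, hc, hrid⟩ := ridout_one b hb (ε / 2) (by positivity)
  -- conditions on `n`
  have hev1 : ∀ᶠ n : ℕ in atTop, (2 : ℝ) ≤ goldenRatio ^ n :=
    (tendsto_pow_atTop_atTop_of_one_lt hφ1).eventually_ge_atTop 2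
  have hev2 : ∀ᶠ n : ℕ in atTop, 2 * κ < (goldenRatio ^ (1 - ε)) ^ n :=
    (tendsto_pow_atTop_atTop_of_one_lt
      (Real.one_lt_rpow hφ1 (by linarith))).eventually_gt_atTop _
  have hev3 : ∀ᶠ n : ℕ in atTop, 4 * (2 * κ) / c < (goldenRatio ^ (ε * (1 - ε) / 2)) ^ n :=
    (tendsto_pow_atTop_atTop_of_one_lt
      (Real.one_lt_rpow hφ1 (by nlinarith))).eventually_gt_atTop _
  have hev4 : ∀ᶠ n : ℕ in atTop, 4 ≤ (goldenRatio ^ (2 - ε)) ^ n :=
    (tendsto_pow_atTop_atTop_of_one_lt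
      (Real.one_lt_rpow hφ1 (by linarith))).eventually_ge_atTop _
  refine ((((hfr.and_eventually hev1).and_eventually hev2).and_eventually hev3).and_eventually
    hev4).mono ?_
  rintro n ⟨⟨⟨⟨⟨d, A, ⟨hd, hA0, ⟨K, hK⟩, hdiff⟩, hEA⟩, hn1⟩, hn2⟩, hn3⟩, hn4⟩
  have hφn : (0 : ℝ) < goldenRatio ^ n := pow_pos hφ0 n
  have hsψ : |s * goldenConj ^ n| ≤ 1 := by
    rw [abs_mul, hs, one_mul]
    exact abs_conj_pow_le_one n
  have hFlow : κ * goldenRatio ^ n / 2 ≤ F n := by
    rw [hF]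
    have := (abs_le.1 hsψ).1
    nlinarith
  have hFhigh : (F n : ℝ) ≤ 2 * κ * goldenRatio ^ n := by
    rw [hF]
    have := (abs_le.1 hsψ).2
    nlinarith
  have hF0 : (0 : ℝ) < F n := lt_of_lt_of_le (by positivity) hFlow
  have hF1 : 1 ≤ F n := by
    have : 0 < F n := by exact_mod_cast hF0
    omega
  have hd0 : ∀ i, 0 < d i := by
    intro i
    rcases Nat.eq_zero_or_pos (d i) with h | h
    · have : ∏ i, d i = 0 := Finset.prod_eq_zero (Finset.mem_univ i) h
      omega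
    · exact h
  -- the greatest common divisor
  set g : ℕ := Finset.univ.gcd A with hg
  have hgd : ∀ i, g ∣ A i := fun i => Finset.gcd_dvd (Finset.mem_univ i)
  have i₀ : Fin t := ⟨0, by omega⟩
  have hg0 : 0 < g := Nat.pos_of_dvd_of_pos (hgd i₀) (hA0 i₀)
  choose A' hA' using hgd
  have hA'0 : ∀ i, 0 < A' i := by
    intro i
    rcases Nat.eq_zero_or_pos (A' i) with h | h
    · have := hA' i
      rw [h, mul_zero] at this
      have := hA0 i
      omega
    · exact h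
  have hgcd1 : Finset.univ.gcd A' = 1 := by
    have h1 : Finset.univ.gcd A = g * Finset.univ.gcd A' := by
      have h2 : Finset.univ.gcd A = Finset.univ.gcd (fun i => g * A' i) :=
        Finset.gcd_congr rfl (fun i _ => hA' i)
      rw [h2, Finset.gcd_mul_left]
      simp
    rw [← hg] at h1
    have : g * 1 = g * Finset.univ.gcd A' := by rw [mul_one]; exact h1
    exact (Nat.eq_of_mul_eq_mul_left hg0 this).symm
  have hA'K : ∀ i, A' i ∣ b ^ K := fun i => (Dvd.intro_left g (hA' i).symm).trans (hK i)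
  set N : ℕ := ∏ i, A' i with hN
  have hN0 : 0 < N := Finset.prod_pos fun i _ => hA'0 i
  have hNb : N ∣ b ^ (K * t) := by
    have h1 : N ∣ ∏ _i : Fin t, b ^ K := Finset.prod_dvd_prod_of_dvd _ _ fun i _ => hA'K i
    rw [Finset.prod_const, Finset.card_univ, Fintype.card_fin, ← pow_mul] at h1
    exact h1
  have hprodA : ∏ i, A i = g ^ t * N := by
    rw [Finset.prod_congr rfl fun i _ => hA' i, Finset.prod_mul_distrib, Finset.prod_const,
      Finset.card_univ, Fintype.card_fin]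
  set x : Fin t → ℕ := fun i => A' i * d i with hx
  have hx0 : ∀ i, 0 < x i := fun i => Nat.mul_pos (hA'0 i) (hd0 i)
  have hprodx : ∏ i, x i = N * F n := by
    simp only [hx]
    rw [Finset.prod_mul_distrib, hd]
  set a : ℝ := ((N * F n : ℕ) : ℝ) with ha
  have ha0 : 0 < a := by
    rw [ha]
    exact_mod_cast Nat.mul_pos hN0 hF1
  have ha1 : 1 ≤ a := by
    rw [ha]
    exact_mod_cast Nat.mul_pos hN0 hF1
  set G : ℝ := a ^ (1 / (t : ℝ)) with hG
  have hG0 : 0 < G := Real.rpow_pos_of_pos ha0 _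
  have hG1 : 1 ≤ G := Real.one_le_rpow ha1 (by positivity)
  have hGpow : G ^ t = a := by
    rw [hG, one_div]
    exact Real.rpow_inv_natCast_pow ha0.le htn
  have hgR : (1 : ℝ) ≤ g := by exact_mod_cast hg0
  have hgR0 : (0 : ℝ) < g := by linarith
  have hgG : (((∏ i, A i) * F n : ℕ) : ℝ) ^ (1 / (t : ℝ)) = g * G := by
    have e1 : (((∏ i, A i) * F n : ℕ) : ℝ) = (g : ℝ) ^ t * a := by
      rw [hprodA, ha]
      push_cast
      ring
    rw [e1, hG, Real.mul_rpow (by positivity) ha0.le, one_div,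
      Real.pow_rpow_inv_natCast hgR0.le htn]
  set Y : ℝ := G ^ (1 / 2 - ε) with hY
  have hY0 : 0 < Y := Real.rpow_pos_of_pos hG0 _
  have hdiff' : ∀ i j, |(x i : ℝ) - x j| ≤ Y := by
    intro i j
    have h1 := hdiff i j
    rw [hgG] at h1
    have e1 : ((A i : ℝ) * d i) - (A j : ℝ) * d j = g * ((x i : ℝ) - x j) := by
      rw [hA' i, hA' j]
      simp only [hx]
      push_cast
      ring
    rw [e1, abs_mul, abs_of_pos hgR0, Real.mul_rpow hgR0.le hG0.le] at h1
    have h2 : (g : ℝ) ^ (1 / 2 - ε) ≤ g := by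
      calc (g : ℝ) ^ (1 / 2 - ε) ≤ (g : ℝ) ^ (1 : ℝ) :=
            Real.rpow_le_rpow_of_exponent_le hgR (by linarith)
        _ = g := Real.rpow_one _
    have h3 : g * |(x i : ℝ) - x j| ≤ g * Y := by
      refine h1.trans ?_
      exact mul_le_mul_of_nonneg_right h2 hY0.le
    exact le_of_mul_le_mul_left h3 hgR0
  have hEN : E n N := hE n N g hg0 (by rw [← hprodA]; exact hEA)
  refine ⟨N, K * t, x, ⟨hx0, hNb, hprodx, ?_, hdiff'⟩, hEN⟩
  -- the second regime
  by_contra hcon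
  rw [not_le, ← ha, ← hG] at hcon
  have hcon' : (goldenRatio ^ (2 - ε)) ^ n < G := by
    rw [← Real.rpow_natCast (goldenRatio ^ (2 - ε)) n, ← Real.rpow_mul hφ0.le]
    exact hcon
  have hG4 : 4 ≤ G := by linarith
  have hYG : Y ≤ G / 2 := by
    have h1 : Y ≤ G ^ (1 / 2 : ℝ) := Real.rpow_le_rpow_of_exponent_le hG1 (by linarith)
    rw [← Real.sqrt_eq_rpow] at h1
    have h2 : 2 ≤ √G := by
      rw [show (2 : ℝ) = √(2 ^ 2) by rw [Real.sqrt_sq (by norm_num)]]
      exact Real.sqrt_le_sqrt (by linarith)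
    have h3 : √G * √G = G := Real.mul_self_sqrt hG0.le
    nlinarith
  have hnear := (sum_near (by omega : 1 ≤ t) (fun i => (x i : ℝ))
    (fun i => by exact_mod_cast hx0 i) hG0
    (by rw [hGpow, ha, ← hprodx]; push_cast; rfl) (Y := Y) hdiff' hYG).1
  by_cases hall : ∀ i, x i = x i₀
  · -- all the products are equal
    have h1 : ∀ i, x i₀ ∣ A' i * F n := by
      intro i
      rw [← hall i]
      simp only [hx]
      exact Nat.mul_dvd_mul_left _ (by rw [← hd]; exact Finset.dvd_prod_of_mem d (Finset.mem_univ i))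
    have h2 : x i₀ ∣ F n := by
      have h3 : x i₀ ∣ Finset.univ.gcd (fun i => A' i * F n) :=
        Finset.dvd_gcd fun i _ => h1 i
      rw [Finset.gcd_mul_right, hgcd1] at h3
      simpa using h3
    have h3 : (x i₀ : ℝ) ≤ F n := by exact_mod_cast Nat.le_of_dvd hF1 h2
    have h4 : G = x i₀ := by
      have h5 : (x i₀ : ℝ) ^ t = G ^ t := by
        rw [hGpow, ha, ← hprodx, Finset.prod_congr rfl fun i _ => hall i, Finset.prod_const,
          Finset.card_univ, Fintype.card_fin]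
        push_cast
        rfl
      exact ((pow_left_inj₀ (by positivity) hG0.le htn).1 h5).symm
    have h5 : G ≤ 2 * κ * goldenRatio ^ n := by rw [h4]; exact h3.trans hFhigh
    have h6 : 2 * κ * goldenRatio ^ n < (goldenRatio ^ (2 - ε)) ^ n := by
      have e1 : (goldenRatio ^ (2 - ε)) ^ n = (goldenRatio ^ (1 - ε)) ^ n * goldenRatio ^ n := by
        rw [← mul_pow]
        congr 1
        nth_rewrite 3 [← Real.rpow_one goldenRatio]
        rw [← Real.rpow_add hφ0]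
        congr 1
        ring
      rw [e1]
      exact mul_lt_mul_of_pos_right hn2 hφn
    linarith
  · push Not at hall
    obtain ⟨i, hi⟩ := hall
    have hij : i ≠ i₀ := fun h => hi (by rw [h])
    have h1 := hrid (x i) (x i₀) (A' i) (A' i₀) K (hx0 i) (hx0 i₀) hi (Dvd.intro _ rfl)
      (Dvd.intro _ rfl) (hA'K i) (hA'K i₀)
    have hdd : (d i : ℝ) * d i₀ ≤ F n := by
      have h2 : d i * d i₀ ≤ F n := by
        have h3 : ∏ l ∈ ({i, i₀} : Finset (Fin t)), d l ∣ ∏ l, d l :=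
          Finset.prod_dvd_prod_of_subset _ _ _ (Finset.subset_univ _)
        rw [Finset.prod_pair hij, hd] at h3
        exact Nat.le_of_dvd hF1 h3
      exact_mod_cast h2
    have hxi : (x i : ℝ) = A' i * d i := by simp only [hx]; push_cast; rfl
    have hxi₀ : (x i₀ : ℝ) = A' i₀ * d i₀ := by simp only [hx]; push_cast; rfl
    have hxp : (0 : ℝ) < x i := by exact_mod_cast hx0 i
    have hlow : G / 2 ≤ x i₀ := by
      have := (abs_le.1 (hnear i₀)).1
      linarith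
    have hhigh : (x i : ℝ) ≤ 2 * G := by
      have := (abs_le.1 (hnear i)).2
      linarith
    have h2 : c * (x i * x i₀) ≤ F n * (Y * (x i : ℝ) ^ (1 + ε / 2)) := by
      have hpp : (0 : ℝ) ≤ (x i : ℝ) ^ (1 + ε / 2) := Real.rpow_nonneg hxp.le _
      calc c * (x i * x i₀) = (d i * d i₀) * (c * (A' i * A' i₀)) := by
            rw [hxi, hxi₀]; ring
        _ ≤ F n * (c * (A' i * A' i₀)) := mul_le_mul_of_nonneg_right hdd (by positivity)
        _ ≤ F n * (|(x i : ℝ) - x i₀| * (x i : ℝ) ^ (1 + ε / 2)) :=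
            mul_le_mul_of_nonneg_left h1 hF0.le
        _ ≤ F n * (Y * (x i : ℝ) ^ (1 + ε / 2)) :=
            mul_le_mul_of_nonneg_left (mul_le_mul_of_nonneg_right (hdiff' i i₀) hpp) hF0.le
    have h3 : (x i : ℝ) ^ (1 + ε / 2) = x i * (x i : ℝ) ^ (ε / 2) := by
      rw [Real.rpow_add hxp, Real.rpow_one]
    have h4 : c * x i₀ ≤ F n * Y * (x i : ℝ) ^ (ε / 2) := by
      rw [h3] at h2
      have e1 : (x i : ℝ) * (c * x i₀) ≤ x i * (F n * Y * (x i : ℝ) ^ (ε / 2)) := by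
        calc (x i : ℝ) * (c * x i₀) = c * (x i * x i₀) := by ring
          _ ≤ _ := h2
          _ = _ := by ring
      exact le_of_mul_le_mul_left e1 hxp
    have h5 : (x i : ℝ) ^ (ε / 2) ≤ 2 * G ^ (ε / 2) := by
      calc (x i : ℝ) ^ (ε / 2) ≤ (2 * G) ^ (ε / 2) :=
            Real.rpow_le_rpow hxp.le hhigh (by positivity)
        _ = 2 ^ (ε / 2) * G ^ (ε / 2) := Real.mul_rpow (by norm_num) hG0.le
        _ ≤ 2 * G ^ (ε / 2) := by
            apply mul_le_mul_of_nonneg_right _ (Real.rpow_nonneg hG0.le _)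
            calc (2 : ℝ) ^ (ε / 2) ≤ 2 ^ (1 : ℝ) :=
                  Real.rpow_le_rpow_of_exponent_le (by norm_num) (by linarith)
              _ = 2 := Real.rpow_one 2
    have h6 : c * (G / 2) ≤ F n * Y * (2 * G ^ (ε / 2)) := by
      calc c * (G / 2) ≤ c * x i₀ := mul_le_mul_of_nonneg_left hlow hc.le
        _ ≤ F n * Y * (x i : ℝ) ^ (ε / 2) := h4
        _ ≤ _ := mul_le_mul_of_nonneg_left h5 (by positivity)
    have h7 : Y * G ^ (ε / 2) * G ^ (1 / 2 + ε / 2) = G := by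
      rw [hY, ← Real.rpow_add hG0, ← Real.rpow_add hG0]
      nth_rewrite 2 [← Real.rpow_one G]
      congr 1
      ring
    have hGe : 0 < G ^ (1 / 2 + ε / 2) := Real.rpow_pos_of_pos hG0 _
    have hYG2 : 0 < Y * G ^ (ε / 2) := mul_pos hY0 (Real.rpow_pos_of_pos hG0 _)
    have h8 : c * G ^ (1 / 2 + ε / 2) ≤ 4 * F n := by
      have e1 : (Y * G ^ (ε / 2)) * (c * G ^ (1 / 2 + ε / 2)) ≤ (Y * G ^ (ε / 2)) * (4 * F n) := by
        calc (Y * G ^ (ε / 2)) * (c * G ^ (1 / 2 + ε / 2))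
            = c * (Y * G ^ (ε / 2) * G ^ (1 / 2 + ε / 2)) := by ring
          _ = 2 * (c * (G / 2)) := by rw [h7]; ring
          _ ≤ 2 * (F n * Y * (2 * G ^ (ε / 2))) := by linarith
          _ = _ := by ring
      exact le_of_mul_le_mul_left e1 hYG2
    have h9 : (goldenRatio ^ (ε * (1 - ε) / 2)) ^ n * goldenRatio ^ n ≤ G ^ (1 / 2 + ε / 2) := by
      have e1 : (goldenRatio ^ (ε * (1 - ε) / 2)) ^ n * goldenRatio ^ n
          = (goldenRatio ^ ((2 - ε) * (n : ℝ))) ^ (1 / 2 + ε / 2) := by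
        rw [← Real.rpow_natCast (goldenRatio ^ _) n, ← Real.rpow_mul hφ0.le,
          ← Real.rpow_natCast goldenRatio n, ← Real.rpow_add hφ0, ← Real.rpow_mul hφ0.le]
        congr 1
        ring
      rw [e1]
      exact Real.rpow_le_rpow (Real.rpow_nonneg hφ0.le _) hcon.le (by positivity)
    have h10 : c * ((goldenRatio ^ (ε * (1 - ε) / 2)) ^ n * goldenRatio ^ n)
        ≤ 4 * (2 * κ) * goldenRatio ^ n := by
      calc c * ((goldenRatio ^ (ε * (1 - ε) / 2)) ^ n * goldenRatio ^ n)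
          ≤ c * G ^ (1 / 2 + ε / 2) := mul_le_mul_of_nonneg_left h9 hc.le
        _ ≤ 4 * F n := h8
        _ ≤ 4 * (2 * κ * goldenRatio ^ n) := by linarith
        _ = _ := by ring
    have h11 : c * (goldenRatio ^ (ε * (1 - ε) / 2)) ^ n ≤ 4 * (2 * κ) := by
      rw [← mul_assoc] at h10
      exact le_of_mul_le_mul_right h10 hφn
    rw [div_lt_iff₀ hc] at hn3
    linarith

end Pool.Agent.J4.H64.FL
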