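import Mathlib
import Pool.Agent.J4.H64.FL.Main

/-!
# Balanced factorizations of Fibonacci and Lucas numbers: final statements
-/

set_option autoImplicit false

namespace Pool.Agent.J4.H64.FL

open Finset Filter Topology Real

/-- positive integers all of whose prime factors are in `S` -/
def Smooth (S : Finset ℕ) (a : ℕ) : Prop := 0 < a ∧ ∀ p : ℕ, p.Prime → p ∣ a → p ∈ S

/-- the Lucas numbers -/
def luc : ℕ → ℕ
  | 0 => 2
  | 1 => 1
  | n + 2 => luc n + luc (n + 1)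

lemma luc_eq (n : ℕ) : (luc n : ℝ) = goldenRatio ^ n + goldenConj ^ n := by
  induction n using Nat.strong_induction_on with
  | _ n ih =>
    match n with
    | 0 => simp [luc]; norm_num
    | 1 =>
      rw [luc, pow_one, pow_one, goldenRatio_add_goldenConj]
      simp
    | n + 2 =>
      rw [luc]
      push_cast
      rw [ih n (by omega), ih (n + 1) (by omega), pow_add goldenRatio n 2, pow_add goldenConj n 2,
        goldenRatio_sq, goldenConj_sq]
      ring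

/-- the product of the primes in `S`, times `2` -/
noncomputable def base (S : Finset ℕ) : ℕ := 2 * ∏ p ∈ S.filter Nat.Prime, p

lemma base_two_le (S : Finset ℕ) : 2 ≤ base S := by
  have : 0 < ∏ p ∈ S.filter Nat.Prime, p :=
    Finset.prod_pos fun p hp => (Finset.mem_filter.1 hp).2.pos
  unfold base
  omega

lemma smooth_dvd {S : Finset ℕ} {a : ℕ} (h : Smooth S a) : a ∣ base S ^ a := by
  have hb : base S ≠ 0 := by
    have := base_two_le S
    omega
  have ha : a ≠ 0 := h.1.ne'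
  rw [← Nat.factorization_le_iff_dvd ha (pow_ne_zero _ hb)]
  intro p
  rw [Nat.factorization_pow, Finsupp.smul_apply, smul_eq_mul]
  by_cases hp : p.Prime
  · by_cases hpa : p ∣ a
    · have h1 : p ∈ S.filter Nat.Prime := Finset.mem_filter.2 ⟨h.2 p hp hpa, hp⟩
      have h2 : p ∣ base S := (Finset.dvd_prod_of_mem _ h1).trans (Dvd.intro_left 2 rfl)
      have h3 : 1 ≤ (base S).factorization p := by
        rw [← hp.dvd_iff_one_le_factorization hb]
        exact h2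
      have h4 : a.factorization p < a := Nat.factorization_lt p ha
      nlinarith
    · rw [Nat.factorization_eq_zero_of_not_dvd hpa]
      exact Nat.zero_le _
  · rw [Nat.factorization_eq_zero_of_not_prime _ hp]
    exact Nat.zero_le _

theorem gen {S : Finset ℕ} {t : ℕ} (ht : 2 ≤ t) {F : ℕ → ℕ} {κ s : ℝ} (hκ : 0 < κ)
    (hκa : IsAlgebraic ℚ κ) (hs : |s| = 1)
    (hF : ∀ n, (F n : ℝ) = κ * (goldenRatio ^ n + s * goldenConj ^ n)) {ε : ℝ} (hε : 0 < ε)
    (E : ℕ → ℕ → Prop) (hE : ∀ n N g, 0 < g → E n (g ^ t * N) → E n N)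
    (hno : ∀ (δ u : ℕ) (p q : ℚ), δ < t → 0 < u →
      √5 * (t * ((u : ℝ) * κ) ^ (1 / (t : ℝ)) * goldenRatio ^ ((δ : ℝ) / t))
        = p + q * goldenRatio →
      ∀ (n k N w : ℕ) (x : Fin t → ℕ), n = t * k + δ → 0 < w → N = u * w ^ t → E n N →
        ∏ i, x i = N * F n →
        (∑ i, (x i : ℚ)) = w * (p * Nat.fib k + q * Nat.fib (k + 1)) → False) :
    ∀ᶠ n in atTop, ∀ d A : Fin t → ℕ, ∏ i, d i = F n → (∀ i, Smooth S (A i)) →
      E n (∏ i, A i) →
      ∃ i j, ((((∏ i, A i) * F n : ℕ)) : ℝ) ^ (1 / (2 * (t : ℝ)) - ε)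
        ≤ |(A i : ℝ) * d i - (A j : ℝ) * d j| := by
  have ht0 : (0 : ℝ) < t := by exact_mod_cast (by omega : 0 < t)
  have ht1 : (1 : ℝ) ≤ t := by exact_mod_cast (by omega : 1 ≤ t)
  by_contra hcon
  rw [Filter.not_eventually] at hcon
  set e : ℝ := min ε (1 / 2) with he
  have he0 : 0 < e := lt_min hε (by norm_num)
  have he1 : e < 1 := (min_le_right _ _).trans_lt (by norm_num)
  have heε : e ≤ ε := min_le_left _ _
  have hev1 : ∀ᶠ n : ℕ in atTop, (2 : ℝ) ≤ goldenRatio ^ n :=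
    (tendsto_pow_atTop_atTop_of_one_lt one_lt_goldenRatio).eventually_ge_atTop 2
  have hfr : ∃ᶠ n in atTop, ∃ (d A : Fin t → ℕ), BadF (base S) t F e n d A ∧ E n (∏ i, A i) := by
    refine (hcon.and_eventually hev1).mono ?_
    rintro n ⟨hn, hn1⟩
    push Not at hn
    obtain ⟨d, A, hd, hA, hEA, hlt⟩ := hn
    refine ⟨d, A, ⟨hd, fun i => (hA i).1, ⟨∑ i, A i, fun i => ?_⟩, fun i j => ?_⟩, hEA⟩
    · exact (smooth_dvd (hA i)).trans (pow_dvd_pow _ (Finset.single_le_sum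
        (fun j _ => Nat.zero_le (A j)) (Finset.mem_univ i)))
    · have hφn : (0 : ℝ) < goldenRatio ^ n := pow_pos goldenRatio_pos n
      have hsψ : |s * goldenConj ^ n| ≤ 1 := by
        rw [abs_mul, hs, one_mul]
        exact abs_conj_pow_le_one n
      have hF0 : (0 : ℝ) < F n := by
        rw [hF]
        have := (abs_le.1 hsψ).1
        exact mul_pos hκ (by linarith)
      have hF1 : 0 < F n := by exact_mod_cast hF0
      have hP : (1 : ℝ) ≤ (((∏ i, A i) * F n : ℕ) : ℝ) := by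
        exact_mod_cast Nat.mul_pos (Finset.prod_pos fun i _ => (hA i).1) hF1
      refine (hlt i j).le.trans ?_
      rw [← Real.rpow_mul (by linarith)]
      apply Real.rpow_le_rpow_of_exponent_le hP
      have h1 : e / t ≤ e := div_le_self he0.le ht1
      have h2 : 1 / (t : ℝ) * (1 / 2 - e) = 1 / (2 * (t : ℝ)) - e / t := by
        field_simp
      rw [h2]
      linarith
  have hred := reduction (base_two_le S) ht hκ hs hF he0 he1 E hE hfr
  obtain ⟨δ, u, p, q, hδ, hu, hpq, hfin⟩ := core (base_two_le S) (by omega : 1 ≤ t) hκ hκa hs hF he0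
    (fun n N _ => E n N) hred
  obtain ⟨n, k, N, w, x, h1, h2, h3, h4, h5, h6⟩ := hfin.exists
  exact hno δ u p q hδ hu hpq n k N w x h1 h2 h3 h4 h5 h6

lemma isAlgebraic_sqrt5_inv : IsAlgebraic ℚ (√5)⁻¹ := by
  have h5 : IsAlgebraic ℚ √5 := by
    apply IsAlgebraic.of_pow (n := 2) (by norm_num)
    rw [Real.sq_sqrt (by norm_num)]
    exact_mod_cast (isAlgebraic_natCast 5 : IsAlgebraic ℚ ((5 : ℕ) : ℝ))
  exact h5.inv

theorem main_fib (S : Finset ℕ) {t : ℕ} (ht : 2 ≤ t) {ε : ℝ} (hε : 0 < ε) :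
    ∀ᶠ n in atTop, ∀ d A : Fin t → ℕ, ∏ i, d i = Nat.fib n → (∀ i, Smooth S (A i)) →
      (¬ (Odd t ∧ t ∣ n ∧ ∃ r : ℚ, ((∏ i, A i : ℕ) : ℚ) = 5 ^ ((t + 1) / 2) * r ^ t)) →
      ∃ i j, ((((∏ i, A i) * Nat.fib n : ℕ)) : ℝ) ^ (1 / (2 * (t : ℝ)) - ε)
        ≤ |(A i : ℝ) * d i - (A j : ℝ) * d j| := by
  refine gen ht (κ := (√5)⁻¹) (s := -1) (inv_pos.2 sqrt5_pos) isAlgebraic_sqrt5_inv (by simp)
    (fun n => by rw [coe_fib_eq]; ring) hε
    (fun n N => ¬ (Odd t ∧ t ∣ n ∧ ∃ r : ℚ, (N : ℚ) = 5 ^ ((t + 1) / 2) * r ^ t)) ?_ ?_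
  · rintro n N g hg h ⟨h1, h2, r, h3⟩
    apply h
    refine ⟨h1, h2, g * r, ?_⟩
    push_cast
    rw [h3, mul_pow]
    ring
  · intro δ u p q hδ hu hpq n k N w x hn hw hN hE _ _
    obtain ⟨h1, h2, r, h3⟩ := fib_case (by omega : 1 ≤ t) hδ hu hpq
    apply hE
    refine ⟨h2, ⟨k, by rw [hn, h1, add_zero]⟩, r * w, ?_⟩
    rw [hN]
    push_cast
    rw [h3, mul_pow]
    ring

theorem main_luc (S : Finset ℕ) {t : ℕ} (ht : 2 ≤ t) {ε : ℝ} (hε : 0 < ε) :
    ∀ᶠ n in atTop, ∀ d A : Fin t → ℕ, ∏ i, d i = luc n → (∀ i, Smooth S (A i)) →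
      (¬ (t ∣ n ∧ ∃ r : ℚ, ((∏ i, A i : ℕ) : ℚ) = r ^ t ∨
        (Even t ∧ ((∏ i, A i : ℕ) : ℚ) = 5 ^ (t / 2) * r ^ t))) →
      ∃ i j, ((((∏ i, A i) * luc n : ℕ)) : ℝ) ^ (1 / (2 * (t : ℝ)) - ε)
        ≤ |(A i : ℝ) * d i - (A j : ℝ) * d j| := by
  refine gen ht (κ := 1) (s := 1) one_pos isAlgebraic_one (by simp)
    (fun n => by rw [luc_eq]; ring) hε
    (fun n N => ¬ (t ∣ n ∧ ∃ r : ℚ, (N : ℚ) = r ^ t ∨
        (Even t ∧ (N : ℚ) = 5 ^ (t / 2) * r ^ t))) ?_ ?_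
  · rintro n N g hg h ⟨h1, r, h2⟩
    apply h
    refine ⟨h1, g * r, ?_⟩
    rcases h2 with h3 | ⟨h3, h4⟩
    · left
      push_cast
      rw [h3, mul_pow]
    · right
      refine ⟨h3, ?_⟩
      push_cast
      rw [h4, mul_pow]
      ring
  · intro δ u p q hδ hu hpq n k N w x hn hw hN hE _ _
    obtain ⟨h1, h2⟩ := luc_case (by omega : 1 ≤ t) hδ hu hpq
    apply hE
    refine ⟨⟨k, by rw [hn, h1, add_zero]⟩, ?_⟩
    rcases h2 with ⟨-, h3⟩ | ⟨h3, -, h4⟩
    · refine ⟨q / (2 * t) * w, Or.inl ?_⟩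
      rw [hN]
      push_cast
      rw [h3, mul_pow (q / (2 * t))]
    · refine ⟨p / (5 * t) * w, Or.inr ⟨h3, ?_⟩⟩
      rw [hN]
      push_cast
      rw [h4, mul_pow (p / (5 * t))]
      ring

lemma luc_id1 (k : ℕ) : (2 * (Nat.fib (k + 1) : ℚ) - Nat.fib k) ^ 2 - luc (2 * k)
    = 2 * (-1) ^ k := by
  have h : (2 * (Nat.fib (k + 1) : ℝ) - Nat.fib k) ^ 2 - luc (2 * k) = 2 * (-1) ^ k := by
    have h1 : 2 * (Nat.fib (k + 1) : ℝ) - Nat.fib k = goldenRatio ^ k + goldenConj ^ k := by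
      have a1 := fib_succ_sub_goldenRatio_mul_fib k
      have a2 := fib_succ_sub_goldenConj_mul_fib k
      have a3 := goldenRatio_add_goldenConj
      linear_combination a1 + a2 + (Nat.fib k : ℝ) * a3
    rw [h1, luc_eq, ← phi_psi, pow_mul', pow_mul']
    ring
  exact_mod_cast h

lemma luc_id2 (k : ℕ) : 5 * (Nat.fib k : ℚ) ^ 2 - luc (2 * k) = -(2 * (-1) ^ k) := by
  have h : 5 * (Nat.fib k : ℝ) ^ 2 - luc (2 * k) = -(2 * (-1) ^ k) := by
    have h1 : √5 * (Nat.fib k : ℝ) = goldenRatio ^ k - goldenConj ^ k := by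
      rw [coe_fib_eq]
      field_simp
    have h2 : 5 * (Nat.fib k : ℝ) ^ 2 = (√5 * (Nat.fib k : ℝ)) ^ 2 := by
      rw [mul_pow, Real.sq_sqrt (by norm_num)]
    rw [h2, h1, luc_eq, ← phi_psi, pow_mul', pow_mul']
    ring
  exact_mod_cast h

lemma not_sq {m : ℕ} (hm : ¬ IsSquare m) (r : ℚ) (h : r ^ 2 = m) : False := by
  apply hm
  rw [← Rat.isSquare_natCast_iff]
  exact ⟨r, by rw [← h]; ring⟩

lemma not_sq_two (r : ℚ) (k : ℕ) (h : r ^ 2 = 2 * (-1) ^ k) : False := by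
  rcases neg_one_pow_eq_or ℚ k with h1 | h1
  · rw [h1, mul_one] at h
    exact not_sq (m := 2) (Irreducible.not_isSquare Nat.prime_two) r (by exact_mod_cast h)
  · rw [h1] at h
    nlinarith [sq_nonneg r]

lemma not_sq_ten (r : ℚ) (k : ℕ) (h : 5 * r ^ 2 = -(2 * (-1) ^ k)) : False := by
  rcases neg_one_pow_eq_or ℚ k with h1 | h1
  · rw [h1] at h
    nlinarith [sq_nonneg r]
  · rw [h1] at h
    have h2 : (5 * r) ^ 2 = ((10 : ℕ) : ℚ) := by
      push_cast
      linarith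
    have h3 : ¬ IsSquare (10 : ℕ) := by
      rintro ⟨r, hr⟩
      have h4 : r ≤ 3 := by nlinarith
      interval_cases r <;> omega
    exact not_sq h3 (5 * r) h2

theorem main_luc_two (S : Finset ℕ) {ε : ℝ} (hε : 0 < ε) :
    ∀ᶠ n in atTop, ∀ d A : Fin 2 → ℕ, ∏ i, d i = luc n → (∀ i, Smooth S (A i)) → True →
      ∃ i j, ((((∏ i, A i) * luc n : ℕ)) : ℝ) ^ (1 / (2 * ((2 : ℕ) : ℝ)) - ε)
        ≤ |(A i : ℝ) * d i - (A j : ℝ) * d j| := by
  refine gen le_rfl (κ := 1) (s := 1) one_pos isAlgebraic_one (by simp)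
    (fun n => by rw [luc_eq]; ring) hε (fun _ _ => True) (fun _ _ _ _ _ => trivial) ?_
  intro δ u p q hδ hu hpq n k N w x hn hw hN _ hx hsum
  obtain ⟨h1, h2⟩ := luc_case (by norm_num : 1 ≤ 2) hδ hu hpq
  have hw0 : (w : ℚ) ≠ 0 := by exact_mod_cast hw.ne'
  have hu0 : (u : ℚ) ≠ 0 := by exact_mod_cast hu.ne'
  rw [Fin.prod_univ_two] at hx
  rw [Fin.sum_univ_two] at hsum
  have hnk : n = 2 * k := by rw [hn, h1, add_zero]
  have hx' : (x 0 : ℚ) * x 1 = (u * (w : ℚ) ^ 2) * luc (2 * k) := by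
    rw [← hnk]
    rw [hN] at hx
    exact_mod_cast hx
  have hsq : ((x 0 : ℚ) - x 1) ^ 2 = (w * (p * Nat.fib k + q * Nat.fib (k + 1))) ^ 2
      - 4 * ((u * (w : ℚ) ^ 2) * luc (2 * k)) := by
    rw [← hsum, ← hx']
    ring
  rcases h2 with ⟨h3, h4⟩ | ⟨-, h3, h4⟩
  · have hp0 : p ≠ 0 := by
      intro h0
      apply hu0
      rw [h4]
      have : q = 0 := by rw [h0] at h3; linarith
      rw [this]
      norm_num
    have hq : q = -(2 * p) := by linarith
    apply not_sq_two (((x 0 : ℚ) - x 1) / (w * p)) k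
    rw [div_pow, hsq, h4, hq, ← luc_id1]
    field_simp
    push_cast
    ring
  · have hp0 : p ≠ 0 := by
      intro h0
      apply hu0
      rw [h4, h0]
      norm_num
    apply not_sq_ten (((x 0 : ℚ) - x 1) / (w * p)) k
    rw [div_pow, hsq, h4, h3, ← luc_id2]
    field_simp
    push_cast
    ring

/-- two factors -/
theorem main_two (S : Finset ℕ) {ε : ℝ} (hε : 0 < ε) :
    ∀ᶠ n in atTop, ∀ d e A B : ℕ, (d * e = Nat.fib n ∨ d * e = luc n) → Smooth S A → Smooth S B →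
      ((A * B * (d * e) : ℕ) : ℝ) ^ (1 / 4 - ε) ≤ |(A : ℝ) * d - (B : ℝ) * e| := by
  have key : ∀ (F : ℕ → ℕ) (n : ℕ), (∀ d A : Fin 2 → ℕ, ∏ i, d i = F n → (∀ i, Smooth S (A i)) →
      ∃ i j, ((((∏ i, A i) * F n : ℕ)) : ℝ) ^ (1 / (2 * ((2 : ℕ) : ℝ)) - ε)
        ≤ |(A i : ℝ) * d i - (A j : ℝ) * d j|) → 0 < F n → ∀ d e A B : ℕ, d * e = F n → Smooth S A →
        Smooth S B → ((A * B * (d * e) : ℕ) : ℝ) ^ (1 / 4 - ε) ≤ |(A : ℝ) * d - (B : ℝ) * e| := by
    intro F n h hFn d e A B hde hA hB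
    obtain ⟨i, j, hij⟩ := h ![d, e] ![A, B] (by simpa [Fin.prod_univ_two] using hde)
      (by intro i; fin_cases i <;> simpa)
    rw [Fin.prod_univ_two] at hij
    have e1 : (1 / (2 * ((2 : ℕ) : ℝ)) - ε) = 1 / 4 - ε := by norm_num
    rw [e1, ← hde] at hij
    simp only [Matrix.cons_val_zero, Matrix.cons_val_one] at hij
    have hpos : (0 : ℝ) < ((A * B * (d * e) : ℕ) : ℝ) ^ (1 / 4 - ε) := by
      apply Real.rpow_pos_of_pos
      rw [hde]
      exact_mod_cast Nat.mul_pos (Nat.mul_pos hA.1 hB.1) hFn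
    by_cases hij' : i = j
    · rw [hij', sub_self, abs_zero] at hij
      linarith
    · fin_cases i <;> fin_cases j
      · exact absurd rfl hij'
      · simpa using hij
      · rw [abs_sub_comm] at hij
        simpa using hij
      · exact absurd rfl hij'
  filter_upwards [main_fib S le_rfl hε, main_luc_two S hε, eventually_ge_atTop 1] with n h1 h2 hn
  intro d e A B hde hA hB
  rcases hde with h | h
  · refine key Nat.fib n (fun d A hd hA => h1 d A hd hA ?_) (Nat.fib_pos.2 hn) d e A B h hA hB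
    rintro ⟨h3, -⟩
    exact absurd h3 (by decide)
  · refine key luc n (fun d A hd hA => h2 d A hd hA trivial) ?_ d e A B h hA hB
    have : (0 : ℝ) < luc n := by
      rw [luc_eq]
      have h3 := (abs_le.1 (abs_conj_pow_le_one n)).1
      have h4 : 1 < goldenRatio ^ n := one_lt_pow₀ one_lt_goldenRatio (by omega)
      linarith
    exact_mod_cast this

end Pool.Agent.J4.H64.FL
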